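import Pool.Agent.H596Q.Pol

set_option autoImplicit false
set_option linter.all false

/-!
# Polynomial maps into abelian groups
-/

open scoped commutatorElement

namespace Pool.Agent.H596Q

section

variable {A : Type} [AddCommGroup A] {c : ℕ}

theorem fact_inv (hA : ∀ m : ℕ, 1 ≤ m → m ≤ c → ∃ u : ℤ, ∀ a : A, u • ((m : ℤ) • a) = a)
    (n : ℕ) (hn : n ≤ c) : ∃ u : ℤ, ∀ a : A, u • ((n.factorial : ℤ) • a) = a := by
  induction n with
  | zero => exact ⟨1, fun a => by simp⟩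
  | succ n ih =>
    obtain ⟨u, hu⟩ := ih (by omega)
    obtain ⟨v, hv⟩ := hA (n + 1) (by omega) hn
    refine ⟨u * v, fun a => ?_⟩
    rw [Nat.factorial_succ, Nat.cast_mul, mul_smul, mul_smul, hv, hu]

theorem iter_smul {M : Type} [AddCommMonoid M] (h : M) (n : ℕ) (u : M → ℤ) (k : A) :
    (fwdDiff h)^[n] (fun x => u x • k) = fun x => ((fwdDiff h)^[n] u x) • k := by
  induction n generalizing u with
  | zero => rfl
  | succ n ih =>
    rw [Function.iterate_succ_apply, Function.iterate_succ_apply, ← ih]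
    congr 1
    funext x
    simp [fwdDiff, sub_smul]

theorem iter_sub {M : Type} [AddCommMonoid M] (h : M) (n : ℕ) (f g : M → A) :
    (fwdDiff h)^[n] (f - g) = (fwdDiff h)^[n] f - (fwdDiff h)^[n] g := by
  rw [← fwdDiff_aux.coe_fwdDiffₗ_pow, map_sub]

theorem iter_zero {M : Type} [AddCommMonoid M] (h : M) (n : ℕ) :
    (fwdDiff h)^[n] (0 : M → A) = 0 := by
  rw [← fwdDiff_aux.coe_fwdDiffₗ_pow, map_zero]

theorem const_of (g : ℤ → A) (hg : fwdDiff 1 g = 0) (x : ℤ) : g x = g 0 := by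
  have h1 : ∀ y, g (y + 1) = g y := fun y => by
    have := congrFun hg y
    exact sub_eq_zero.1 this
  induction x using Int.induction_on with
  | zero => rfl
  | succ i ih => rw [h1, ih]
  | pred i ih => rw [← ih, ← h1 (-(i : ℤ) - 1)]; congr 1; ring

theorem oneD (hA : ∀ m : ℕ, 1 ≤ m → m ≤ c → ∃ u : ℤ, ∀ a : A, u • ((m : ℤ) • a) = a) (N : ℕ) :
    N ≤ c + 1 → ∀ f : ℤ → A, (fwdDiff 1)^[N] f = 0 →
      ∃ k : ℕ → A, ∀ x, f x = ∑ n ∈ Finset.range N, (x ^ n) • k n := by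
  induction N with
  | zero =>
    intro _ f hf
    refine ⟨fun _ => 0, fun x => ?_⟩
    have : f = 0 := hf
    simp [this]
  | succ N ih =>
    intro hN f hf
    rw [Function.iterate_succ_apply'] at hf
    have hc := const_of _ hf
    obtain ⟨u, hu⟩ := fact_inv hA N (by omega)
    let kN : A := u • ((fwdDiff 1)^[N] f) 0
    obtain ⟨k, hk⟩ := ih (by omega) (f - fun x => x ^ N • kN) (by
      rw [iter_sub, iter_smul, fwdDiff_iter_eq_factorial]
      funext x
      rw [Pi.sub_apply, hc x]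
      show _ - ((N.factorial : ℤ → ℤ) x) • kN = 0
      rw [sub_eq_zero]
      show _ = (N.factorial : ℤ) • (u • ((fwdDiff 1)^[N] f) 0)
      rw [smul_comm, hu])
    refine ⟨fun n => if n = N then kN else k n, fun x => ?_⟩
    rw [Finset.sum_range_succ]
    have h2 : f x = (f - fun x : ℤ => x ^ N • kN : ℤ → A) x + x ^ N • kN := by simp
    rw [h2, hk]
    congr 1
    · refine Finset.sum_congr rfl fun n hn => ?_
      simp only
      rw [if_neg (by have := Finset.mem_range.1 hn; omega)]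
    · simp

theorem uniq (hA : ∀ m : ℕ, 1 ≤ m → m ≤ c → ∃ u : ℤ, ∀ a : A, u • ((m : ℤ) • a) = a) (N : ℕ) :
    N ≤ c + 1 → ∀ k : ℕ → A, (∀ x : ℤ, ∑ n ∈ Finset.range N, (x ^ n) • k n = 0) →
      ∀ n < N, k n = 0 := by
  induction N with
  | zero => intro _ k _ n hn; omega
  | succ N ih =>
    intro hN k hk
    have h1 : (fun x : ℤ => ∑ n ∈ Finset.range (N + 1), (x ^ n) • k n) = 0 := by
      funext x; exact hk x
    have h2 : (fwdDiff (1 : ℤ))^[N] (fun x : ℤ => ∑ n ∈ Finset.range (N + 1), (x ^ n) • k n) =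
        (fwdDiff (1 : ℤ))^[N] 0 := by rw [h1]
    rw [iter_zero] at h2
    have h3 : (fun x : ℤ => ∑ n ∈ Finset.range (N + 1), (x ^ n) • k n) =
        ∑ n ∈ Finset.range (N + 1), fun x : ℤ => (x ^ n) • k n := by
      funext x; simp
    rw [h3, fwdDiff_iter_finsetSum, Finset.sum_range_succ, Finset.sum_eq_zero, zero_add,
      iter_smul, fwdDiff_iter_eq_factorial] at h2
    · obtain ⟨u, hu⟩ := fact_inv hA N (by omega)
      have h4 : (N.factorial : ℤ) • k N = 0 := congrFun h2 0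
      have h5 : k N = 0 := by rw [← hu (k N), h4, smul_zero]
      intro n hn
      rcases Nat.lt_succ_iff_lt_or_eq.1 hn with h | rfl
      · refine ih (by omega) k (fun x => ?_) n h
        have := hk x
        rw [Finset.sum_range_succ, h5, smul_zero, add_zero] at this
        exact this
      · exact h5
    · intro n hn
      rw [iter_smul, fwdDiff_iter_pow_eq_zero_of_lt (Finset.mem_range.1 hn)]
      funext x
      simp

theorem twoD_iter (a b : ℕ) (u v : ℤ → ℤ) (k : A) :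
    (fwdDiff ((1 : ℤ), (0 : ℤ)))^[a] ((fwdDiff ((0 : ℤ), (1 : ℤ)))^[b]
      (fun x : ℤ × ℤ => (u x.1 * v x.2) • k)) =
      fun x => (((fwdDiff (1 : ℤ))^[a] u) x.1 * ((fwdDiff (1 : ℤ))^[b] v) x.2) • k := by
  have h1 : ∀ (b : ℕ) (u v : ℤ → ℤ), (fwdDiff ((0 : ℤ), (1 : ℤ)))^[b]
      (fun x : ℤ × ℤ => (u x.1 * v x.2) • k) =
      fun x => (u x.1 * ((fwdDiff (1 : ℤ))^[b] v) x.2) • k := by
    intro b
    induction b with
    | zero => intro u v; rfl
    | succ b ih =>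
      intro u v
      rw [Function.iterate_succ_apply, Function.iterate_succ_apply, ← ih]
      congr 1
      funext x
      simp only [fwdDiff, Prod.fst_add, Prod.snd_add, add_zero]
      rw [← sub_smul]
      congr 1
      ring
  have h2 : ∀ (a : ℕ) (u v : ℤ → ℤ), (fwdDiff ((1 : ℤ), (0 : ℤ)))^[a]
      (fun x : ℤ × ℤ => (u x.1 * v x.2) • k) =
      fun x => (((fwdDiff (1 : ℤ))^[a] u) x.1 * v x.2) • k := by
    intro a
    induction a with
    | zero => intro u v; rfl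
    | succ a ih =>
      intro u v
      rw [Function.iterate_succ_apply, Function.iterate_succ_apply, ← ih]
      congr 1
      funext x
      simp only [fwdDiff, Prod.fst_add, Prod.snd_add, add_zero]
      rw [← sub_smul]
      congr 1
      ring
  rw [h1, h2]

theorem comm12 : Function.Commute (fwdDiff ((0 : ℤ), (1 : ℤ)) : (ℤ × ℤ → A) → _)
    (fwdDiff ((1 : ℤ), (0 : ℤ))) := by
  intro f
  funext x
  simp only [fwdDiff]
  rw [add_right_comm x]
  abel

theorem const_of2 (g : ℤ × ℤ → A) (h1 : fwdDiff ((1 : ℤ), (0 : ℤ)) g = 0)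
    (h2 : fwdDiff ((0 : ℤ), (1 : ℤ)) g = 0) (x : ℤ × ℤ) : g x = g (0, 0) := by
  obtain ⟨s, t⟩ := x
  have e1 : g (s, t) = g (0, t) := by
    refine const_of (fun s => g (s, t)) ?_ s
    funext y
    have := congrFun h1 (y, t)
    simpa [fwdDiff] using this
  have e2 : g (0, t) = g (0, 0) := by
    refine const_of (fun t => g (0, t)) ?_ t
    funext y
    have := congrFun h2 (0, y)
    simpa [fwdDiff] using this
  rw [e1, e2]

theorem twoD (hA : ∀ m : ℕ, 1 ≤ m → m ≤ c → ∃ u : ℤ, ∀ a : A, u • ((m : ℤ) • a) = a) (N : ℕ) :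
    N ≤ c + 1 → ∀ f : ℤ × ℤ → A,
      (∀ a b, a + b = N → (fwdDiff ((1 : ℤ), (0 : ℤ)))^[a]
        ((fwdDiff ((0 : ℤ), (1 : ℤ)))^[b] f) = 0) →
      ∃ k : ℕ → ℕ → A, ∀ x, f x = ∑ n ∈ Finset.range N, ∑ ij ∈ Finset.HasAntidiagonal.antidiagonal n,
        (x.1 ^ ij.1 * x.2 ^ ij.2) • k ij.1 ij.2 := by
  induction N with
  | zero =>
    intro _ f hf
    refine ⟨fun _ _ => 0, fun x => ?_⟩
    have : f = 0 := hf 0 0 rfl
    simp [this]
  | succ N ih =>
    intro hN f hf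
    have hc : ∀ a b, a + b = N → ∀ x, ((fwdDiff ((1 : ℤ), (0 : ℤ)))^[a]
        ((fwdDiff ((0 : ℤ), (1 : ℤ)))^[b] f)) x = ((fwdDiff ((1 : ℤ), (0 : ℤ)))^[a]
        ((fwdDiff ((0 : ℤ), (1 : ℤ)))^[b] f)) (0, 0) := by
      intro a b hab
      refine const_of2 _ ?_ ?_
      · have := hf (a + 1) b (by omega)
        rwa [Function.iterate_succ_apply'] at this
      · have h1 := hf a (b + 1) (by omega)
        rw [Function.iterate_succ_apply'] at h1
        rw [← h1]
        exact (comm12.iterate_right a) _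
    choose u hu using fun n (hn : n ≤ c) => fact_inv hA n hn
    let kN : ℕ → ℕ → A := fun a b => if h : a ≤ c ∧ b ≤ c then
      u a h.1 • (u b h.2 • ((fwdDiff ((1 : ℤ), (0 : ℤ)))^[a]
        ((fwdDiff ((0 : ℤ), (1 : ℤ)))^[b] f)) (0, 0)) else 0
    have hkN : ∀ a b, a + b = N → ((a.factorial : ℤ) * (b.factorial : ℤ)) • kN a b =
        ((fwdDiff ((1 : ℤ), (0 : ℤ)))^[a]
        ((fwdDiff ((0 : ℤ), (1 : ℤ)))^[b] f)) (0, 0) := by
      intro a b hab
      have h1 : kN a b = u a (by omega) • (u b (by omega) • ((fwdDiff ((1 : ℤ), (0 : ℤ)))^[a]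
        ((fwdDiff ((0 : ℤ), (1 : ℤ)))^[b] f)) (0, 0)) := dif_pos ⟨by omega, by omega⟩
      rw [h1, mul_comm, mul_smul, smul_comm (a.factorial : ℤ), hu, smul_comm, hu]
    let T : ℤ × ℤ → A := ∑ ij ∈ Finset.HasAntidiagonal.antidiagonal N,
      fun x : ℤ × ℤ => (x.1 ^ ij.1 * x.2 ^ ij.2) • kN ij.1 ij.2
    have hT : ∀ a b, a + b = N → (fwdDiff ((1 : ℤ), (0 : ℤ)))^[a]
        ((fwdDiff ((0 : ℤ), (1 : ℤ)))^[b] T) =
        fun _ => ((a.factorial : ℤ) * (b.factorial : ℤ)) • kN a b := by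
      intro a b hab
      have h1 : (fwdDiff ((1 : ℤ), (0 : ℤ)))^[a] ((fwdDiff ((0 : ℤ), (1 : ℤ)))^[b] T) =
        ∑ ij ∈ Finset.HasAntidiagonal.antidiagonal N, (fwdDiff ((1 : ℤ), (0 : ℤ)))^[a]
          ((fwdDiff ((0 : ℤ), (1 : ℤ)))^[b]
            (fun x : ℤ × ℤ => (x.1 ^ ij.1 * x.2 ^ ij.2) • kN ij.1 ij.2)) := by
        rw [fwdDiff_iter_finsetSum, fwdDiff_iter_finsetSum]
      rw [h1, Finset.sum_eq_single (a, b)]
      · rw [twoD_iter a b (fun t => t ^ a) (fun t => t ^ b), fwdDiff_iter_eq_factorial,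
          fwdDiff_iter_eq_factorial]
        rfl
      · rintro ⟨i, j⟩ hij hne
        have hij' := Finset.HasAntidiagonal.mem_antidiagonal.1 hij
        simp only at hij'
        rw [twoD_iter a b (fun t => t ^ i) (fun t => t ^ j)]
        rcases lt_or_ge i a with h | h
        · rw [fwdDiff_iter_pow_eq_zero_of_lt h]
          funext x; simp
        · have hj : j < b := by
            by_contra hcon
            apply hne
            ext
            · simp only; omega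
            · simp only; omega
          rw [fwdDiff_iter_pow_eq_zero_of_lt hj]
          funext x; simp
      · intro hn
        exact absurd (Finset.HasAntidiagonal.mem_antidiagonal.2 hab) hn
    obtain ⟨k, hk⟩ := ih (by omega) (f - T) (by
      intro a b hab
      rw [iter_sub, iter_sub, hT a b hab]
      funext x
      rw [Pi.sub_apply, hc a b hab x, hkN a b hab]
      simp)
    refine ⟨fun i j => if i + j = N then kN i j else k i j, fun x => ?_⟩
    rw [Finset.sum_range_succ]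
    have h2 : f x = (f - T) x + T x := by simp
    rw [h2, hk]
    congr 1
    · refine Finset.sum_congr rfl fun n hn => Finset.sum_congr rfl fun ij hij => ?_
      simp only
      rw [if_neg (by
        have h3 := Finset.mem_range.1 hn
        have h4 := Finset.HasAntidiagonal.mem_antidiagonal.1 hij
        omega)]
    · simp only [T]
      rw [Finset.sum_apply]
      refine Finset.sum_congr rfl fun ij hij => ?_
      rw [if_pos (Finset.HasAntidiagonal.mem_antidiagonal.1 hij)]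

end

section

variable {K : Type} [Group K] {c : ℕ} (Φ : Filt K c)

/-- the graded pieces of a filtration -/
theorem exists_quot (i : ℕ) (hi : 1 ≤ i) : ∃ (A : Type) (_ : AddCommGroup A) (ψ : K → A),
    (∀ x ∈ Φ.F i, ∀ y ∈ Φ.F i, ψ (x * y) = ψ x + ψ y) ∧
    (∀ x ∈ Φ.F i, ψ x = 0 ↔ x ∈ Φ.F (i + 1)) ∧ (∀ a, ∃ x ∈ Φ.F i, ψ x = a) := by
  classical
  let N := (Φ.F (i + 1)).subgroupOf (Φ.F i)
  have hcomm : ∀ a b : Φ.F i, ⁅a, b⁆ ∈ N := by
    intro a b
    rw [Subgroup.mem_subgroupOf]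
    exact F_anti Φ (by omega) (Φ.comm i i _ a.2 _ b.2)
  haveI hN : N.Normal := by
    constructor
    intro n hn g
    rw [conj_eq]
    exact N.mul_mem (hcomm _ _) hn
  letI inst : CommGroup (Φ.F i ⧸ N) :=
    { (inferInstance : Group (Φ.F i ⧸ N)) with
      mul_comm := by
        intro a b
        obtain ⟨a, rfl⟩ := QuotientGroup.mk_surjective a
        obtain ⟨b, rfl⟩ := QuotientGroup.mk_surjective b
        rw [← QuotientGroup.mk_mul, ← QuotientGroup.mk_mul, QuotientGroup.eq]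
        have : (a * b)⁻¹ * (b * a) = ⁅b⁻¹, a⁻¹⁆ := by
          rw [commutatorElement_def]; group
        rw [this]
        exact hcomm _ _ }
  refine ⟨Additive (Φ.F i ⧸ N), inferInstance,
    fun x => if hx : x ∈ Φ.F i then Additive.ofMul (QuotientGroup.mk ⟨x, hx⟩) else 0, ?_, ?_, ?_⟩
  · intro x hx y hy
    beta_reduce
    rw [dif_pos hx, dif_pos hy, dif_pos ((Φ.F i).mul_mem hx hy)]
    rfl
  · intro x hx
    beta_reduce
    rw [dif_pos hx]
    constructor
    · intro h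
      have h1 : (QuotientGroup.mk ⟨x, hx⟩ : Φ.F i ⧸ N) = 1 := h
      rw [QuotientGroup.eq_one_iff] at h1
      exact h1
    · intro h
      have h1 : (QuotientGroup.mk ⟨x, hx⟩ : Φ.F i ⧸ N) = 1 := by
        rw [QuotientGroup.eq_one_iff]
        exact h
      exact h1
  · intro a
    obtain ⟨x, hx⟩ := QuotientGroup.mk_surjective (Additive.toMul a)
    refine ⟨x, x.2, ?_⟩
    beta_reduce
    rw [dif_pos x.2]
    exact hx

variable {A : Type} [AddCommGroup A] {ψ : K → A} {i : ℕ}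

theorem psi_one (h1 : ∀ x ∈ Φ.F i, ∀ y ∈ Φ.F i, ψ (x * y) = ψ x + ψ y) : ψ 1 = 0 := by
  have := h1 1 (Φ.F i).one_mem 1 (Φ.F i).one_mem
  rw [mul_one] at this
  simpa using this

theorem psi_inv (h1 : ∀ x ∈ Φ.F i, ∀ y ∈ Φ.F i, ψ (x * y) = ψ x + ψ y) (x : K)
    (hx : x ∈ Φ.F i) : ψ x⁻¹ = - ψ x := by
  have := h1 x hx x⁻¹ ((Φ.F i).inv_mem hx)
  rw [mul_inv_cancel, psi_one Φ h1] at this
  exact (neg_eq_of_add_eq_zero_right this.symm).symm

theorem psi_zpow (h1 : ∀ x ∈ Φ.F i, ∀ y ∈ Φ.F i, ψ (x * y) = ψ x + ψ y) (x : K)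
    (hx : x ∈ Φ.F i) (n : ℤ) : ψ (x ^ n) = n • ψ x := by
  induction n using Int.induction_on with
  | zero => simp [psi_one Φ h1]
  | succ n ih =>
    rw [zpow_add, zpow_one, h1 _ ((Φ.F i).zpow_mem hx _) _ hx, ih, add_smul, one_smul]
  | pred n ih =>
    rw [zpow_sub, zpow_one, h1 _ ((Φ.F i).zpow_mem hx _) _ ((Φ.F i).inv_mem hx), ih, sub_smul,
      one_smul, psi_inv Φ h1 x hx, sub_eq_add_neg]

theorem psi_div {q : ℕ} (hq : ∀ x : K, x ^ q = 1) (hcop : ∀ m : ℕ, 1 ≤ m → m ≤ c → m.Coprime q)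
    (h1 : ∀ x ∈ Φ.F i, ∀ y ∈ Φ.F i, ψ (x * y) = ψ x + ψ y) (h3 : ∀ a, ∃ x ∈ Φ.F i, ψ x = a) :
    ∀ m : ℕ, 1 ≤ m → m ≤ c → ∃ u : ℤ, ∀ a : A, u • ((m : ℤ) • a) = a := by
  intro m hm hmc
  obtain ⟨u, v, huv⟩ := Nat.isCoprime_iff_coprime.2 (hcop m hm hmc)
  refine ⟨u, fun a => ?_⟩
  obtain ⟨x, hx, rfl⟩ := h3 a
  have h4 : (q : ℤ) • ψ x = 0 := by
    rw [← psi_zpow Φ h1 x hx, zpow_natCast, hq, psi_one Φ h1]
  have h5 : (u * m + v * q) • ψ x = ψ x := by rw [huv, one_smul]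
  rw [add_smul, mul_smul, mul_smul, h4, smul_zero, add_zero] at h5
  exact h5

/-- functions to the graded piece coming from polynomial maps -/
def Rel {X : Type} [AddCommGroup X] (ψ : K → A) (i j : ℕ) (f : X → A) : Prop :=
  ∃ g ∈ Pol X Φ j, (∀ x, g x ∈ Φ.F i) ∧ ∀ x, f x = ψ (g x)

theorem Rel_diff {X : Type} [AddCommGroup X]
    (h1 : ∀ x ∈ Φ.F i, ∀ y ∈ Φ.F i, ψ (x * y) = ψ x + ψ y) {j : ℕ} {f : X → A}
    (hf : Rel Φ ψ i j f) (h : X) : Rel Φ ψ i (j + 1) (fwdDiff h f) := by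
  obtain ⟨g, hg, hv, hfg⟩ := hf
  refine ⟨D h g, ((mem_Pol Φ).1 hg).2 h, fun x => (Φ.F i).mul_mem (hv _) ((Φ.F i).inv_mem (hv _)),
    fun x => ?_⟩
  rw [D, h1 _ (hv _) _ ((Φ.F i).inv_mem (hv _)), psi_inv Φ h1 _ (hv _), fwdDiff, hfg, hfg,
    sub_eq_add_neg]

theorem Rel_iter {X : Type} [AddCommGroup X]
    (h1 : ∀ x ∈ Φ.F i, ∀ y ∈ Φ.F i, ψ (x * y) = ψ x + ψ y) {j : ℕ} {f : X → A}
    (hf : Rel Φ ψ i j f) (h : X) (n : ℕ) : Rel Φ ψ i (j + n) ((fwdDiff h)^[n] f) := by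
  induction n with
  | zero => exact hf
  | succ n ih =>
    rw [Function.iterate_succ_apply']
    exact Rel_diff Φ h1 ih h

theorem Rel_zero {X : Type} [AddCommGroup X]
    (h2 : ∀ x ∈ Φ.F i, ψ x = 0 ↔ x ∈ Φ.F (i + 1)) {j : ℕ} {f : X → A}
    (hf : Rel Φ ψ i j f) (hj : i + 1 ≤ j) : f = 0 := by
  obtain ⟨g, hg, hv, hfg⟩ := hf
  funext x
  rw [hfg]
  exact (h2 _ (hv x)).2 (F_anti Φ hj (((mem_Pol Φ).1 hg).1 x))

end

end Pool.Agent.H596Q
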