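import Pool.Agent.H596Q.Path

set_option autoImplicit false
set_option linter.all false

/-!
# Cube groups and polynomiality of the path class
-/

open scoped commutatorElement

namespace Pool.Agent.H596Q

section

variable {G : Type} [Group G] {c : ℕ} (Φ : Filt G c)

/-- face elements -/
def face (y : G) (J : Finset ℕ) : Finset ℕ → G := fun ε => if J ⊆ ε then y else 1

theorem face_comm (a b : G) (J J' : Finset ℕ) :
    ⁅face a J, face b J'⁆ = face ⁅a, b⁆ (J ∪ J') := by
  funext ε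
  simp only [face, commutatorElement_def, Pi.mul_apply, Pi.inv_apply, Finset.union_subset_iff]
  by_cases h1 : J ⊆ ε <;> by_cases h2 : J' ⊆ ε <;> simp [h1, h2]

theorem face_inv (a : G) (J : Finset ℕ) : (face a J)⁻¹ = face a⁻¹ J := by
  funext ε
  simp only [face, Pi.inv_apply]
  split_ifs <;> simp

theorem face_one (J : Finset ℕ) : face (1 : G) J = 1 := by
  funext ε
  simp [face]

/-- generators -/
def gens (i : ℕ) : Set (Finset ℕ → G) :=
  {x | ∃ J : Finset ℕ, ∃ y ∈ Φ.F (max i J.card), x = face y J}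

/-- the filtration of the cube group -/
def E (i : ℕ) : Subgroup (Finset ℕ → G) := Subgroup.closure (gens Φ i)

theorem gens_comm {i j : ℕ} {x y : Finset ℕ → G} (hx : x ∈ gens Φ i) (hy : y ∈ gens Φ j) :
    ⁅x, y⁆ ∈ gens Φ (i + j) := by
  obtain ⟨J, a, ha, rfl⟩ := hx
  obtain ⟨J', b, hb, rfl⟩ := hy
  refine ⟨J ∪ J', ⁅a, b⁆, ?_, face_comm a b J J'⟩
  refine F_anti Φ ?_ (Φ.comm _ _ _ ha _ hb)
  have := Finset.card_union_le J J'
  omega

theorem gens_inv {i : ℕ} {x : Finset ℕ → G} (hx : x ∈ gens Φ i) : x⁻¹ ∈ gens Φ i := by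
  obtain ⟨J, a, ha, rfl⟩ := hx
  exact ⟨J, a⁻¹, (Φ.F _).inv_mem ha, face_inv a J⟩

theorem E_conj_gen {m : ℕ} {x y : Finset ℕ → G} (hx : x ∈ gens Φ 0) (hy : y ∈ E Φ m) :
    x * y * x⁻¹ ∈ E Φ m := by
  refine Subgroup.closure_induction (p := fun y _ => x * y * x⁻¹ ∈ E Φ m) ?_ ?_ ?_ ?_ hy
  · intro y hy
    rw [conj_eq]
    have h1 := gens_comm Φ hx hy
    rw [Nat.zero_add] at h1
    exact (E Φ m).mul_mem (Subgroup.subset_closure h1) (Subgroup.subset_closure hy)
  · simp [(E Φ m).one_mem]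
  · intro y z _ _ h1 h2
    have := (E Φ m).mul_mem h1 h2
    have e : x * y * x⁻¹ * (x * z * x⁻¹) = x * (y * z) * x⁻¹ := by group
    rwa [e] at this
  · intro y _ h1
    have := (E Φ m).inv_mem h1
    have e : (x * y * x⁻¹)⁻¹ = x * y⁻¹ * x⁻¹ := by group
    rwa [e] at this

theorem E_conj {m : ℕ} {x : Finset ℕ → G} (hx : x ∈ E Φ 0) :
    ∀ y ∈ E Φ m, x * y * x⁻¹ ∈ E Φ m ∧ x⁻¹ * y * x ∈ E Φ m := by
  refine Subgroup.closure_induction
    (p := fun x _ => ∀ y ∈ E Φ m, x * y * x⁻¹ ∈ E Φ m ∧ x⁻¹ * y * x ∈ E Φ m) ?_ ?_ ?_ ?_ hx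
  · intro x hx y hy
    refine ⟨E_conj_gen Φ hx hy, ?_⟩
    have := E_conj_gen Φ (gens_inv Φ hx) hy
    rwa [inv_inv] at this
  · intro y hy
    simpa using hy
  · intro a b _ _ ha hb y hy
    constructor
    · have := (ha _ (hb y hy).1).1
      have e : a * (b * y * b⁻¹) * a⁻¹ = a * b * y * (a * b)⁻¹ := by group
      rwa [e] at this
    · have := (hb _ (ha y hy).2).2
      have e : b⁻¹ * (a⁻¹ * y * a) * b = (a * b)⁻¹ * y * (a * b) := by group
      rwa [e] at this
  · intro a _ ha y hy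
    rw [inv_inv]
    exact ⟨(ha y hy).2, (ha y hy).1⟩

theorem E_anti (i : ℕ) : E Φ (i + 1) ≤ E Φ i := by
  apply Subgroup.closure_mono
  rintro x ⟨J, y, hy, rfl⟩
  exact ⟨J, y, F_anti Φ (by omega) hy, rfl⟩

theorem E_anti' {i j : ℕ} (h : i ≤ j) : E Φ j ≤ E Φ i := antitone_nat_of_succ_le (E_anti Φ) h

theorem E_comm (i j : ℕ) : ∀ x ∈ E Φ i, ∀ y ∈ E Φ j, ⁅x, y⁆ ∈ E Φ (i + j) := by
  have h1 : ∀ x ∈ gens Φ i, ∀ y ∈ E Φ j, ⁅x, y⁆ ∈ E Φ (i + j) := by
    intro x hx y hy
    have : y ∈ E Φ j ∧ ⁅x, y⁆ ∈ E Φ (i + j) := by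
      refine Subgroup.closure_induction (p := fun y _ => y ∈ E Φ j ∧ ⁅x, y⁆ ∈ E Φ (i + j))
        ?_ ?_ ?_ ?_ hy
      · intro y hy
        exact ⟨Subgroup.subset_closure hy, Subgroup.subset_closure (gens_comm Φ hx hy)⟩
      · exact ⟨(E Φ j).one_mem, by simp [commutatorElement_def, (E Φ (i + j)).one_mem]⟩
      · rintro y z _ _ ⟨hy, hy'⟩ ⟨hz, hz'⟩
        refine ⟨(E Φ j).mul_mem hy hz, ?_⟩
        have e : ⁅x, y * z⁆ = ⁅x, y⁆ * (y * ⁅x, z⁆ * y⁻¹) := by
          simp only [commutatorElement_def]; group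
        rw [e]
        exact (E Φ _).mul_mem hy' (E_conj Φ (E_anti' Φ (Nat.zero_le _) hy) _ hz').1
      · rintro y _ ⟨hy, hy'⟩
        refine ⟨(E Φ j).inv_mem hy, ?_⟩
        have e : ⁅x, y⁻¹⁆ = y⁻¹ * ⁅x, y⁆⁻¹ * y := by
          simp only [commutatorElement_def]; group
        rw [e]
        exact (E_conj Φ (E_anti' Φ (Nat.zero_le _) hy) _ ((E Φ _).inv_mem hy')).2
    exact this.2
  intro x hx y hy
  have : x ∈ E Φ i ∧ ⁅x, y⁆ ∈ E Φ (i + j) := by
    refine Subgroup.closure_induction (p := fun x _ => x ∈ E Φ i ∧ ⁅x, y⁆ ∈ E Φ (i + j))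
      ?_ ?_ ?_ ?_ hx
    · intro x hx
      exact ⟨Subgroup.subset_closure hx, h1 x hx y hy⟩
    · exact ⟨(E Φ i).one_mem, by simp [commutatorElement_def, (E Φ (i + j)).one_mem]⟩
    · rintro a b _ _ ⟨ha, ha'⟩ ⟨hb, hb'⟩
      refine ⟨(E Φ i).mul_mem ha hb, ?_⟩
      have e : ⁅a * b, y⁆ = (a * ⁅b, y⁆ * a⁻¹) * ⁅a, y⁆ := by
        simp only [commutatorElement_def]; group
      rw [e]
      exact (E Φ _).mul_mem (E_conj Φ (E_anti' Φ (Nat.zero_le _) ha) _ hb').1 ha'
    · rintro a _ ⟨ha, ha'⟩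
      refine ⟨(E Φ i).inv_mem ha, ?_⟩
      have e : ⁅a⁻¹, y⁆ = a⁻¹ * ⁅a, y⁆⁻¹ * a := by
        simp only [commutatorElement_def]; group
      rw [e]
      exact (E_conj Φ (E_anti' Φ (Nat.zero_le _) ha) _ ((E Φ _).inv_mem ha')).2
  exact this.2

/-- the cube filtration -/
def cubeFilt : Filt (Finset ℕ → G) c where
  F := E Φ
  anti := E_anti Φ
  comm := E_comm Φ
  bot := by
    intro x hx
    have h1 : E Φ (c + 1) ≤ ⊥ := by
      unfold E
      rw [Subgroup.closure_le]
      rintro x ⟨J, y, hy, rfl⟩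
      have : y = 1 := Φ.bot _ (F_anti Φ (by omega) hy)
      rw [this, face_one]
      rfl
    exact h1 hx
  zero := by
    apply Subgroup.closure_mono
    rintro x ⟨J, y, hy, rfl⟩
    refine ⟨J, y, ?_, rfl⟩
    rcases Nat.eq_zero_or_pos J.card with h | h
    · rw [h] at hy ⊢
      exact Φ.zero hy
    · exact F_anti Φ (by omega) hy

theorem E_ev (i : ℕ) (ε : Finset ℕ) : ∀ x ∈ E Φ i, x ε ∈ Φ.F i := by
  have h1 : E Φ i ≤ (Φ.F i).comap (Pi.evalMonoidHom (fun _ => G) ε) := by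
    unfold E
    rw [Subgroup.closure_le]
    rintro x ⟨J, y, hy, rfl⟩
    show face y J ε ∈ Φ.F i
    unfold face
    split_ifs
    · exact F_anti Φ (by omega) hy
    · exact (Φ.F i).one_mem
  exact fun x hx => h1 hx

theorem Q_ev {p : ℤ → Finset ℕ → G} (hp : p ∈ Q (cubeFilt Φ)) (ε : Finset ℕ) :
    (fun t => p t ε) ∈ Q Φ := by
  refine ⟨Pol_map (cubeFilt Φ) Φ (Pi.evalMonoidHom (fun _ => G) ε)
    (fun i x hx => E_ev Φ i ε x hx) hp.1, ?_⟩
  have := congrFun hp.2 ε
  exact this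

theorem alt_sum {A : Type} [AddCommGroup A] (J : Finset ℕ) (k : ℕ) (hJ : J.card < k) (a : A) :
    ∑ ε ∈ (Finset.range k).powerset, ((-1 : ℤ) ^ ε.card) • (if J ⊆ ε then a else 0) = 0 := by
  obtain ⟨j, hj, hjJ⟩ : ∃ j ∈ Finset.range k, j ∉ J := by
    by_contra hcon
    push Not at hcon
    have : (Finset.range k) ⊆ J := hcon
    have := Finset.card_le_card this
    rw [Finset.card_range] at this
    omega
  rw [← Finset.insert_erase hj, Finset.sum_powerset_insert (Finset.notMem_erase _ _),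
    ← Finset.sum_add_distrib]
  refine Finset.sum_eq_zero fun ε hε => ?_
  have h1 : j ∉ ε := fun h => Finset.notMem_erase _ _ (Finset.mem_powerset.1 hε h)
  have h2 : J ⊆ insert j ε ↔ J ⊆ ε := by
    constructor
    · intro h x hx
      rcases Finset.mem_insert.1 (h hx) with rfl | h'
      · exact absurd hx hjJ
      · exact h'
    · intro h
      exact h.trans (Finset.subset_insert _ _)
  rw [Finset.card_insert_of_notMem h1, pow_succ]
  simp only [h2]
  split_ifs <;> simp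

/-- the subgroup of paths in the cube group whose alternating sum vanishes -/
def kerSum (k : ℕ) : Subgroup (ℤ → Finset ℕ → G) where
  carrier := {p | ∃ hp : ∀ ε, (fun t => p t ε) ∈ Q Φ,
    ∑ ε ∈ (Finset.range k).powerset, ((-1 : ℤ) ^ ε.card) • cls Φ ⟨_, hp ε⟩ = 0}
  mul_mem' := by
    rintro p p' ⟨hp, hp'⟩ ⟨hq, hq'⟩
    refine ⟨fun ε => (Q Φ).mul_mem (hp ε) (hq ε), ?_⟩
    have : ∀ ε, cls Φ ⟨fun t => (p * p') t ε, (Q Φ).mul_mem (hp ε) (hq ε)⟩ =
      cls Φ ⟨_, hp ε⟩ + cls Φ ⟨_, hq ε⟩ := fun ε => by rw [← cls_mul]; rfl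
    simp only [this, smul_add, Finset.sum_add_distrib, hp', hq', add_zero]
  one_mem' := by
    refine ⟨fun ε => (Q Φ).one_mem, ?_⟩
    refine Finset.sum_eq_zero fun ε _ => ?_
    have : cls Φ ⟨fun t => (1 : ℤ → Finset ℕ → G) t ε, (Q Φ).one_mem⟩ = 0 := cls_one Φ
    rw [this, smul_zero]
  inv_mem' := by
    rintro p ⟨hp, hp'⟩
    refine ⟨fun ε => (Q Φ).inv_mem (hp ε), ?_⟩
    have : ∀ ε, cls Φ ⟨fun t => (p⁻¹) t ε, (Q Φ).inv_mem (hp ε)⟩ =
      - cls Φ ⟨_, hp ε⟩ := fun ε => by rw [← cls_inv]; rfl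
    simp only [this, smul_neg, Finset.sum_neg_distrib, hp', neg_zero]

theorem Q_le_kerSum {q : ℕ} (hq : ∀ x : G, x ^ q = 1)
    (hcop : ∀ m : ℕ, 1 ≤ m → m ≤ c → m.Coprime q) : Q (cubeFilt Φ) ≤ kerSum Φ (c + 1) := by
  refine gen (cubeFilt Φ) (q := q) (fun x => by funext ε; exact hq _) hcop (gens Φ)
    (fun i => rfl) _ ?_ ?_
  · intro i j κ hκ hj hji
    have hm : ∀ ε, (fun t : ℤ => (κ ^ (t ^ j)) ε) ∈ Q Φ := fun ε =>
      pow_mem_Q Φ (E_ev Φ i ε κ hκ) (by omega) hji
    refine ⟨hm, Finset.sum_eq_zero fun ε _ => ?_⟩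
    have : cls Φ ⟨_, hm ε⟩ = 0 := (cls_eq_zero Φ).2 (pow_mem_Q2 Φ (E_ev Φ i ε κ hκ) hj hji)
    rw [this, smul_zero]
  · rintro i hi s ⟨J, y, hy, rfl⟩
    have hm : ∀ ε, (fun t : ℤ => (face y J ^ t) ε) ∈ Q Φ := by
      intro ε
      refine path_mem_Q Φ (κ := face y J ε) ?_
      unfold face
      split_ifs
      · exact F_anti Φ (by omega) hy
      · exact (Φ.F 1).one_mem
    refine ⟨hm, ?_⟩
    have hy1 : (fun t : ℤ => y ^ t) ∈ Q Φ := path_mem_Q Φ (F_anti Φ (by omega) hy)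
    have e1 : ∀ ε, cls Φ ⟨_, hm ε⟩ = if J ⊆ ε then cls Φ ⟨_, hy1⟩ else 0 := by
      intro ε
      split_ifs with h
      · congr 2
        funext t
        show (face y J ε) ^ t = y ^ t
        rw [face, if_pos h]
      · rw [← cls_one]
        congr 1
        apply Subtype.ext
        funext t
        show (face y J ε) ^ t = 1
        rw [face, if_neg h, one_zpow]
    rw [Finset.sum_congr rfl (fun ε _ => by rw [e1 ε])]
    rcases Nat.lt_or_ge J.card (c + 1) with h | h
    · exact alt_sum J (c + 1) h _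
    · have : y = 1 := Φ.bot _ (F_anti Φ (by omega) hy)
      have h0 : cls Φ ⟨_, hy1⟩ = 0 := by
        rw [← cls_one]
        congr 1
        apply Subtype.ext
        funext t
        show y ^ t = 1
        rw [this, one_zpow]
      rw [h0]
      simp

/-- polynomial functions on a group -/
def PD {A : Type} [AddCommGroup A] : ℕ → (G → A) → Prop
  | 0, f => f = 0
  | d + 1, f => ∀ g, PD d (fun x => f (x * g) - f x)

/-- parametrised cubes -/
def XX (g : ℕ → G) (x : G) : ℕ → (Finset ℕ → G)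
  | 0 => fun _ => x
  | k + 1 => fun ε => XX g x k ε * (if k ∈ ε then g k else 1)

theorem XX_congr (g g' : ℕ → G) (x : G) (k : ℕ) (ε ε' : Finset ℕ)
    (h : ∀ j < k, g j = g' j) (h' : ∀ j < k, j ∈ ε ↔ j ∈ ε') : XX g x k ε = XX g' x k ε' := by
  induction k with
  | zero => rfl
  | succ k ih =>
    unfold XX
    rw [ih (fun j hj => h j (by omega)) (fun j hj => h' j (by omega)), h k (by omega)]
    simp only [h' k (by omega)]

theorem PD_of {A : Type} [AddCommGroup A] (k : ℕ) : ∀ f : G → A,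
    (∀ (g : ℕ → G) (x : G), ∑ ε ∈ (Finset.range k).powerset,
      ((-1 : ℤ) ^ ε.card) • f (XX g x k ε) = 0) → PD k f := by
  induction k with
  | zero =>
    intro f hf
    funext x
    have := hf 1 x
    simpa [XX] using this
  | succ k ih =>
    intro f hf h
    apply ih
    intro g x
    have h1 := hf (Function.update g k h) x
    rw [Finset.range_add_one, Finset.sum_powerset_insert Finset.notMem_range_self,
      ← Finset.sum_add_distrib] at h1
    rw [← neg_eq_zero, ← Finset.sum_neg_distrib, ← h1]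
    refine Finset.sum_congr rfl fun ε hε => ?_
    have h2 : k ∉ ε := fun h => Finset.notMem_range_self (Finset.mem_powerset.1 hε h)
    have e1 : XX (Function.update g k h) x (k + 1) ε = XX g x k ε := by
      show XX (Function.update g k h) x k ε * (if k ∈ ε then Function.update g k h k else 1) = _
      rw [if_neg h2, mul_one]
      refine XX_congr _ _ x k ε ε (fun j hj => ?_) (fun _ _ => Iff.rfl)
      rw [Function.update_of_ne (by omega)]
    have e2 : XX (Function.update g k h) x (k + 1) (insert k ε) = XX g x k ε * h := by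
      show XX (Function.update g k h) x k (insert k ε) *
        (if k ∈ insert k ε then Function.update g k h k else 1) = _
      rw [if_pos (Finset.mem_insert_self _ _), Function.update_self]
      congr 1
      refine XX_congr _ _ x k _ ε (fun j hj => ?_) (fun j hj => ?_)
      · rw [Function.update_of_ne (by omega)]
      · rw [Finset.mem_insert]
        constructor
        · rintro (rfl | h)
          · omega
          · exact h
        · exact Or.inr
    rw [e1, e2, Finset.card_insert_of_notMem h2, pow_succ]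
    simp only [mul_neg, mul_one, neg_smul, smul_sub]
    abel

theorem XX_mem (hF : Φ.F 1 = ⊤) (g : ℕ → G) (x : G) (k : ℕ) : XX g x k ∈ E Φ 1 := by
  induction k with
  | zero =>
    refine Subgroup.subset_closure ⟨∅, x, ?_, ?_⟩
    · have : max 1 (∅ : Finset ℕ).card = 1 := by simp
      rw [this, hF]; exact Subgroup.mem_top _
    · funext ε
      simp [XX, face]
  | succ k ih =>
    have h1 : XX g x (k + 1) = XX g x k * face (g k) {k} := by
      funext ε
      simp [XX, face]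
    rw [h1]
    refine (E Φ 1).mul_mem ih (Subgroup.subset_closure ⟨{k}, g k, ?_, rfl⟩)
    have : max 1 ({k} : Finset ℕ).card = 1 := by simp
    rw [this, hF]; exact Subgroup.mem_top _

/-- the main technical theorem: a polynomial embedding into an abelian group -/
theorem exists_poly {q : ℕ} (hq : ∀ x : G, x ^ q = 1)
    (hcop : ∀ m : ℕ, 1 ≤ m → m ≤ c → m.Coprime q) (hF : Φ.F 1 = ⊤) :
    ∃ (A : Type) (_ : AddCommGroup A) (lam : G → A), (∀ a : A, q • a = 0) ∧
      (∀ g, lam g = 0 ↔ g = 1) ∧ PD (c + 1) lam := by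
  have hm : ∀ g : G, (fun t : ℤ => g ^ t) ∈ Q Φ := fun g =>
    path_mem_Q Φ (by rw [hF]; exact Subgroup.mem_top _)
  refine ⟨V Φ, inferInstance, fun g => cls Φ ⟨_, hm g⟩, ?_, ?_, ?_⟩
  · intro a
    obtain ⟨b, hb⟩ := QuotientGroup.mk_surjective (Additive.toMul a)
    obtain ⟨g, hg⟩ := QuotientGroup.mk_surjective b
    have h1 : a = cls Φ g := by
      unfold cls
      have : Abelianization.of g = b := hg
      rw [this, hb]; rfl
    have h2 : ∀ n : ℕ, cls Φ (g ^ n) = n • cls Φ g := by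
      intro n
      induction n with
      | zero => simp [cls_one]
      | succ n ih => rw [pow_succ, cls_mul, ih, succ_nsmul]
    rw [h1, ← h2]
    have h3 : g ^ q = 1 := by
      apply Subtype.ext
      funext t
      exact hq _
    rw [h3, cls_one]
  · intro g
    constructor
    · intro h
      exact nontriv Φ hq hcop (by rw [hF]; exact Subgroup.mem_top _) ((cls_eq_zero Φ).1 h)
    · rintro rfl
      rw [← cls_one Φ]
      show cls Φ ⟨_, hm 1⟩ = cls Φ 1
      congr 1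
      apply Subtype.ext
      funext t
      exact one_zpow t
  · apply PD_of
    intro g x
    have h1 : (fun t : ℤ => XX g x (c + 1) ^ t) ∈ Q (cubeFilt Φ) :=
      path_mem_Q (cubeFilt Φ) (XX_mem Φ hF g x (c + 1))
    obtain ⟨h2, h3⟩ := Q_le_kerSum Φ hq hcop h1
    exact h3

end

end Pool.Agent.H596Q
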