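import Pool.Agent.H596Q.Cube

set_option autoImplicit false
set_option linter.all false

/-!
# The lower central filtration of a finite `p`-group
-/

open scoped commutatorElement

namespace Pool.Agent.H596Q

section

variable {G : Type} [Group G]

theorem three (N H1 H2 H3 : Subgroup G) [N.Normal] (h1 : ⁅⁅H2, H3⁆, H1⁆ ≤ N)
    (h2 : ⁅⁅H3, H1⁆, H2⁆ ≤ N) : ⁅⁅H1, H2⁆, H3⁆ ≤ N := by
  have key : ∀ X : Subgroup G, X ≤ N ↔ X.map (QuotientGroup.mk' N) = ⊥ := by
    intro X
    rw [Subgroup.map_eq_bot_iff, QuotientGroup.ker_mk']
  rw [key, Subgroup.map_commutator, Subgroup.map_commutator] at h1 h2 ⊢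
  exact Subgroup.commutator_commutator_eq_bot_of_rotate h1 h2

theorem lcs_comm (j : ℕ) : ∀ i, ⁅(⊤ : Subgroup G).lowerCentralSeries i,
    (⊤ : Subgroup G).lowerCentralSeries j⁆ ≤ (⊤ : Subgroup G).lowerCentralSeries (i + j + 1) := by
  induction j with
  | zero =>
    intro i
    rfl
  | succ j ih =>
    intro i
    rw [Subgroup.commutator_comm, Subgroup.lowerCentralSeries_succ]
    apply three
    · rw [Subgroup.commutator_comm ⊤, ← Subgroup.lowerCentralSeries_succ]
      refine (ih (i + 1)).trans (le_of_eq ?_)
      congr 1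
      omega
    · have h1 := Subgroup.commutator_mono (ih i) (le_refl (⊤ : Subgroup G))
      rw [← Subgroup.lowerCentralSeries_succ] at h1
      refine h1.trans (le_of_eq ?_)
      congr 1

/-- the lower central filtration -/
def lcsFilt (c : ℕ) (h : (⊤ : Subgroup G).lowerCentralSeries c = ⊥) : Filt G c where
  F i := (⊤ : Subgroup G).lowerCentralSeries (i - 1)
  anti i := Subgroup.lowerCentralSeries_antitone _ (by omega)
  comm i j x hx y hy := by
    rcases Nat.eq_zero_or_pos i with rfl | hi
    · have h1 : ⁅x, y⁆ ∈ ⁅(⊤ : Subgroup G), (⊤ : Subgroup G).lowerCentralSeries (j - 1)⁆ :=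
        Subgroup.commutator_mem_commutator (Subgroup.mem_top _) hy
      rw [Subgroup.commutator_comm, ← Subgroup.lowerCentralSeries_succ] at h1
      exact Subgroup.lowerCentralSeries_antitone _ (by omega) h1
    rcases Nat.eq_zero_or_pos j with rfl | hj
    · have h1 : ⁅x, y⁆ ∈ ⁅(⊤ : Subgroup G).lowerCentralSeries (i - 1), (⊤ : Subgroup G)⁆ :=
        Subgroup.commutator_mem_commutator hx (Subgroup.mem_top _)
      rw [← Subgroup.lowerCentralSeries_succ] at h1
      exact Subgroup.lowerCentralSeries_antitone _ (by omega) h1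
    have h1 := lcs_comm (G := G) (j - 1) (i - 1) (Subgroup.commutator_mem_commutator hx hy)
    exact Subgroup.lowerCentralSeries_antitone _ (by omega) h1
  bot x hx := by
    have : (⊤ : Subgroup G).lowerCentralSeries (c + 1 - 1) = ⊥ := h
    rw [this] at hx
    exact hx
  zero := le_refl _

theorem lcs_bot {p n : ℕ} [hp : Fact p.Prime] [Finite G] (hG : Nat.card G = p ^ n) :
    (⊤ : Subgroup G).lowerCentralSeries n = ⊥ := by
  have hpG : IsPGroup p G := IsPGroup.of_card hG
  haveI := hpG.isNilpotent
  obtain ⟨N, hN⟩ := Subgroup.nilpotent_iff_lowerCentralSeries.1 (inferInstance : Group.IsNilpotent G)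
  have key : ∀ i, i ≤ n → Nat.card ((⊤ : Subgroup G).lowerCentralSeries i) ∣ p ^ (n - i) := by
    intro i
    induction i with
    | zero =>
      intro _
      rw [Nat.sub_zero, ← hG]
      exact Subgroup.card_subgroup_dvd_card _
    | succ i ih =>
      intro hi
      have h1 := ih (by omega)
      by_cases heq : (⊤ : Subgroup G).lowerCentralSeries (i + 1) =
        (⊤ : Subgroup G).lowerCentralSeries i
      · have h2 : ∀ j, (⊤ : Subgroup G).lowerCentralSeries (i + j) =
          (⊤ : Subgroup G).lowerCentralSeries i := by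
          intro j
          induction j with
          | zero => rfl
          | succ j ihj =>
            rw [← add_assoc, Subgroup.lowerCentralSeries_succ, ihj,
              ← Subgroup.lowerCentralSeries_succ, heq]
        have h3 : (⊤ : Subgroup G).lowerCentralSeries i = ⊥ := by
          rw [← h2 N, eq_bot_iff, ← hN]
          exact Subgroup.lowerCentralSeries_antitone _ (by omega)
        rw [heq, h3, Subgroup.card_bot]
        exact one_dvd _
      · have hle : (⊤ : Subgroup G).lowerCentralSeries (i + 1) ≤
          (⊤ : Subgroup G).lowerCentralSeries i :=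
          Subgroup.lowerCentralSeries_antitone _ (by omega)
        obtain ⟨a, ha, hacard⟩ := (Nat.dvd_prime_pow hp.out).1 h1
        have h3 : Nat.card ((⊤ : Subgroup G).lowerCentralSeries (i + 1)) ∣ p ^ a := by
          rw [← hacard]
          exact Subgroup.card_dvd_of_le hle
        obtain ⟨b, hb, hbcard⟩ := (Nat.dvd_prime_pow hp.out).1 h3
        have hne : b ≠ a := by
          rintro rfl
          apply heq
          exact Subgroup.eq_of_le_of_card_ge hle (by rw [hacard, hbcard])
        rw [hbcard]
        exact pow_dvd_pow _ (by omega)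
  have := key n le_rfl
  rw [Nat.sub_self, pow_zero] at this
  exact Subgroup.card_eq_one.1 (Nat.dvd_one.1 this)

theorem exists_gens {p n : ℕ} [hp : Fact p.Prime] [Finite G] (hG : Nat.card G = p ^ n) :
    ∃ S : Finset G, S.card ≤ n ∧ Subgroup.closure (S : Set G) = ⊤ := by
  classical
  have key : ∀ k, k ≤ n → ∃ S : Finset G, S.card ≤ k ∧
      p ^ k ∣ Nat.card (Subgroup.closure (S : Set G)) := by
    intro k
    induction k with
    | zero => intro _; exact ⟨∅, by simp, by simp⟩
    | succ k ih =>
      intro hk
      obtain ⟨S, hS, hd⟩ := ih (by omega)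
      have h1 : Nat.card (Subgroup.closure (S : Set G)) ∣ p ^ n := by
        rw [← hG]; exact Subgroup.card_subgroup_dvd_card _
      obtain ⟨a, ha, hacard⟩ := (Nat.dvd_prime_pow hp.out).1 h1
      rw [hacard] at hd
      have hka : k ≤ a := (Nat.pow_dvd_pow_iff_le_right hp.out.one_lt).1 hd
      rcases Nat.lt_or_ge k a with h | h
      · exact ⟨S, by omega, by rw [hacard]; exact pow_dvd_pow _ h⟩
      · have hak : a = k := by omega
        have hne : Subgroup.closure (S : Set G) ≠ ⊤ := by
          intro htop
          rw [htop, Subgroup.card_top, hG] at hacard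
          have := Nat.pow_right_injective hp.out.two_le hacard
          omega
        obtain ⟨x, hx⟩ : ∃ x, x ∉ Subgroup.closure (S : Set G) := by
          by_contra hcon
          push Not at hcon
          exact hne (eq_top_iff.2 fun x _ => hcon x)
        refine ⟨insert x S, (Finset.card_insert_le _ _).trans (by omega), ?_⟩
        have h2 : Nat.card (Subgroup.closure ((insert x S : Finset G) : Set G)) ∣ p ^ n := by
          rw [← hG]; exact Subgroup.card_subgroup_dvd_card _
        obtain ⟨b, hb, hbcard⟩ := (Nat.dvd_prime_pow hp.out).1 h2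
        have hle : Subgroup.closure (S : Set G) ≤
            Subgroup.closure ((insert x S : Finset G) : Set G) :=
          Subgroup.closure_mono (by simp)
        have h3 : p ^ a ∣ p ^ b := by
          rw [← hacard, ← hbcard]; exact Subgroup.card_dvd_of_le hle
        have hab : a ≤ b := (Nat.pow_dvd_pow_iff_le_right hp.out.one_lt).1 h3
        have hne2 : a ≠ b := by
          rintro rfl
          apply hx
          rw [Subgroup.eq_of_le_of_card_ge hle (by rw [hacard, hbcard])]
          exact Subgroup.subset_closure (by simp)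
        rw [hbcard]
        exact pow_dvd_pow _ (by omega)
  obtain ⟨S, hS, hd⟩ := key n le_rfl
  refine ⟨S, hS, ?_⟩
  apply Subgroup.eq_top_of_card_eq
  rw [hG]
  refine Nat.dvd_antisymm ?_ hd
  rw [← hG]; exact Subgroup.card_subgroup_dvd_card _

/-- the faithful polynomial function for a group of order `p ^ n`, `n < p` -/
theorem exists_poly' {p n : ℕ} [hp : Fact p.Prime] [Finite G] (hG : Nat.card G = p ^ n)
    (hn : n < p) :
    ∃ (A : Type) (_ : AddCommGroup A) (lam : G → A), (∀ a : A, p ^ n • a = 0) ∧
      (∀ g, lam g = 0 ↔ g = 1) ∧ PD (n + 1) lam := by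
  refine exists_poly (lcsFilt n (lcs_bot hG)) (q := p ^ n) ?_ ?_ rfl
  · intro x
    rw [← hG]
    exact pow_card_eq_one'
  · intro m hm hmn
    apply Nat.Coprime.pow_right
    exact Nat.Coprime.symm ((Nat.Prime.coprime_iff_not_dvd hp.out).2
      (fun h => by have := Nat.le_of_dvd (by omega) h; omega))

end

end Pool.Agent.H596Q
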