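import Pool.Agent.H596Q.Lcs

set_option autoImplicit false
set_option linter.all false

/-!
# The translation module of a polynomial function, and finite abelian groups
-/

namespace Pool.Agent.H596Q

section

variable {G A : Type} [Group G] [AddCommGroup A]

/-- right translation -/
def tr (g : G) : (G → A) →+ (G → A) where
  toFun f := fun x => f (x * g)
  map_zero' := rfl
  map_add' _ _ := rfl

theorem tr_apply (g : G) (f : G → A) (x : G) : tr g f x = f (x * g) := rfl

theorem tr_mul (g h : G) (f : G → A) : tr (g * h) f = tr g (tr h f) := by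
  funext x
  simp only [tr_apply, mul_assoc]

theorem tr_one (f : G → A) : tr 1 f = f := by
  funext x
  simp only [tr_apply, mul_one]

/-- the span of the translates -/
def Wt (f : G → A) : AddSubgroup (G → A) := AddSubgroup.closure (Set.range fun g => tr g f)

theorem stable_closure (s : Set (G → A)) (g : G) (hs : ∀ v ∈ s, tr g v ∈ AddSubgroup.closure s)
    {v : G → A} (hv : v ∈ AddSubgroup.closure s) : tr g v ∈ AddSubgroup.closure s := by
  have : AddSubgroup.closure s ≤ (AddSubgroup.closure s).comap (tr g) := by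
    rw [AddSubgroup.closure_le]
    exact hs
  exact this hv

theorem Wt_stable (f : G → A) (g : G) {v : G → A} (hv : v ∈ Wt f) : tr g v ∈ Wt f := by
  refine stable_closure _ g ?_ hv
  rintro v ⟨h, rfl⟩
  exact AddSubgroup.subset_closure ⟨g * h, tr_mul g h f⟩

theorem Wt_fin (r : ℕ) (S : Finset G) (hS : S.card ≤ r)
    (hSt : Subgroup.closure (S : Set G) = ⊤) (d : ℕ) : ∀ f : G → A, PD d f →
    ∃ B : Finset (G → A), B.card ≤ (r + 1) ^ d ∧ Wt f ≤ AddSubgroup.closure (B : Set (G → A)) := by
  classical
  induction d with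
  | zero =>
    intro f hf
    refine ⟨∅, by simp, ?_⟩
    unfold Wt
    rw [AddSubgroup.closure_le]
    rintro v ⟨g, rfl⟩
    have h0 : f = 0 := hf
    rw [h0]
    simp
  | succ d ih =>
    intro f hf
    have hf' : ∀ g, PD d (tr g f - f) := fun g => hf g
    choose B hB hWB using fun g => ih _ (hf' g)
    let M : AddSubgroup (G → A) := AddSubgroup.closure (⋃ s ∈ S, Set.range fun g => tr g (tr s f - f))
    have hMst : ∀ (g : G) {v : G → A}, v ∈ M → tr g v ∈ M := by
      intro g v hv
      refine stable_closure _ g ?_ hv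
      intro v hv
      simp only [Set.mem_iUnion, Set.mem_range] at hv
      obtain ⟨s, hs, h, rfl⟩ := hv
      apply AddSubgroup.subset_closure
      simp only [Set.mem_iUnion, Set.mem_range]
      exact ⟨s, hs, g * h, tr_mul g h _⟩
    have hall : ∀ g : G, tr g f - f ∈ M := by
      intro g
      have hg : g ∈ Subgroup.closure (S : Set G) := by rw [hSt]; exact Subgroup.mem_top _
      refine Subgroup.closure_induction (p := fun g _ => tr g f - f ∈ M) ?_ ?_ ?_ ?_ hg
      · intro s hs
        apply AddSubgroup.subset_closure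
        simp only [Set.mem_iUnion, Set.mem_range]
        exact ⟨s, hs, 1, tr_one _⟩
      · rw [tr_one, sub_self]
        exact M.zero_mem
      · intro g h _ _ hg hh
        have e : tr (g * h) f - f = tr g (tr h f - f) + (tr g f - f) := by
          rw [map_sub, tr_mul]; abel
        rw [e]
        exact M.add_mem (hMst g hh) hg
      · intro g _ hg
        have e : tr g⁻¹ f - f = - tr g⁻¹ (tr g f - f) := by
          rw [map_sub, ← tr_mul, inv_mul_cancel, tr_one]; abel
        rw [e]
        exact M.neg_mem (hMst _ hg)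
    refine ⟨insert f (S.biUnion B), ?_, ?_⟩
    · refine (Finset.card_insert_le _ _).trans ?_
      have h1 : (S.biUnion B).card ≤ S.card * (r + 1) ^ d := Finset.card_biUnion_le_card_mul _ _ _
        (fun s _ => hB s)
      have h2 : S.card * (r + 1) ^ d ≤ r * (r + 1) ^ d := Nat.mul_le_mul_right _ hS
      have h3 : 1 ≤ (r + 1) ^ d := Nat.one_le_pow _ _ (by omega)
      rw [pow_succ]
      nlinarith
    · have hM : M ≤ AddSubgroup.closure ((insert f (S.biUnion B) : Finset (G → A)) : Set (G → A)) := by
        rw [AddSubgroup.closure_le]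
        intro v hv
        simp only [Set.mem_iUnion, Set.mem_range] at hv
        obtain ⟨s, hs, h, rfl⟩ := hv
        have h1 : tr h (tr s f - f) ∈ Wt (tr s f - f) := AddSubgroup.subset_closure ⟨h, rfl⟩
        refine AddSubgroup.closure_mono ?_ (hWB s h1)
        intro b hb
        simp only [Finset.coe_insert, Finset.coe_biUnion]
        refine Set.mem_insert_of_mem _ ?_
        simp only [Set.mem_iUnion]
        exact ⟨s, hs, hb⟩
      unfold Wt
      rw [AddSubgroup.closure_le]
      rintro v ⟨g, rfl⟩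
      have e : tr g f = (tr g f - f) + f := by abel
      show tr g f ∈ _
      rw [e]
      exact AddSubgroup.add_mem _ (hM (hall g)) (AddSubgroup.subset_closure (by simp))

theorem card_closure_aux {X : Type} [AddCommGroup X] (q : ℕ) (hq0 : q ≠ 0) [Module (ZMod q) X]
    (B : Finset X) (W : AddSubgroup X) (hW : W ≤ AddSubgroup.closure (B : Set X)) :
    Finite W ∧ Nat.card W ≤ q ^ B.card := by
  haveI : NeZero q := ⟨hq0⟩
  let L : (B → ZMod q) →ₗ[ZMod q] X := Fintype.linearCombination (ZMod q) (fun b : B => (b : X))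
  have h1 : AddSubgroup.closure (B : Set X) ≤ (LinearMap.range L).toAddSubgroup := by
    rw [AddSubgroup.closure_le]
    intro b hb
    have : b ∈ LinearMap.range L := by
      rw [Fintype.range_linearCombination]
      exact Submodule.subset_span ⟨⟨b, hb⟩, rfl⟩
    exact this
  haveI hfin0 : Finite (B → ZMod q) := Pi.finite
  haveI hfin : Finite (LinearMap.range L) := Finite.of_surjective _ L.surjective_rangeRestrict
  have h2 : W ≤ (LinearMap.range L).toAddSubgroup := hW.trans h1
  let ι : W → LinearMap.range L := fun w => ⟨w, h2 w.2⟩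
  have hι : Function.Injective ι := by
    intro a b hab
    apply Subtype.ext
    have h3 : ((ι a : LinearMap.range L) : X) = ((ι b : LinearMap.range L) : X) := by rw [hab]
    exact h3
  refine ⟨Finite.of_injective ι hι, ?_⟩
  calc Nat.card W ≤ Nat.card (LinearMap.range L) := Nat.card_le_card_of_injective ι hι
    _ ≤ Nat.card (B → ZMod q) :=
      Nat.card_le_card_of_surjective L.rangeRestrict L.surjective_rangeRestrict
    _ = q ^ B.card := by
      rw [Nat.card_fun, Nat.card_zmod, Nat.card_eq_fintype_card, Fintype.card_coe]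

theorem card_closure {X : Type} [AddCommGroup X] (q : ℕ) (hq0 : q ≠ 0) (hq : ∀ x : X, q • x = 0)
    (B : Finset X) (W : AddSubgroup X) (hW : W ≤ AddSubgroup.closure (B : Set X)) :
    Finite W ∧ Nat.card W ≤ q ^ B.card :=
  @card_closure_aux X _ q hq0 (AddCommGroup.zmodModule hq) B W hW

end

/-- index set of the finite abelian `p`-groups of bounded order -/
abbrev Idx (n M : ℕ) : Type := Σ k : Fin (M + 1), (Fin k → Fin (n + 1))

/-- the abelian groups -/
abbrev Ab (p n M : ℕ) (x : Idx n M) : Type := ∀ j : Fin x.1, ZMod (p ^ (x.2 j : ℕ))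

theorem classify {p n M : ℕ} [hp : Fact p.Prime] {W : Type} [AddCommGroup W] [Finite W]
    (hq : ∀ w : W, p ^ n • w = 0) (hW : Nat.card W ≤ p ^ M) :
    ∃ x : Idx n M, Nonempty (W ≃+ Ab p n M x) := by
  classical
  obtain ⟨ι, hι, m, hm1, ⟨e⟩⟩ := AddCommGroup.equiv_directSum_zmod_of_finite' W
  let e1 : W ≃+ ∀ i, ZMod (m i) := e.trans (DirectSum.addEquivProd _)
  have hdvd : ∀ i, m i ∣ p ^ n := by
    intro i
    have h1 : p ^ n • (Pi.single i 1 : ∀ i, ZMod (m i)) = 0 := by
      apply e1.symm.injective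
      rw [map_nsmul, hq, map_zero]
    have h2 := congrFun h1 i
    rw [Pi.smul_apply, Pi.single_eq_same, Pi.zero_apply, nsmul_eq_mul, mul_one] at h2
    exact (ZMod.natCast_eq_zero_iff _ _).1 h2
  choose a ha hma using fun i => (Nat.dvd_prime_pow hp.out).1 (hdvd i)
  have hcard : Nat.card W = ∏ i, m i := by
    rw [Nat.card_congr e1.toEquiv, Nat.card_pi]
    exact Finset.prod_congr rfl fun i _ => Nat.card_zmod _
  have hk : Fintype.card ι ≤ M := by
    have h1 : p ^ Fintype.card ι ≤ ∏ i, m i := by
      rw [← Finset.card_univ, ← Finset.prod_const]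
      refine Finset.prod_le_prod' fun i _ => ?_
      rw [hma i]
      refine Nat.le_self_pow ?_ p
      intro h
      have := hm1 i
      rw [hma i, h, pow_zero] at this
      exact lt_irrefl _ this
    rw [← hcard] at h1
    exact (Nat.pow_le_pow_iff_right hp.out.one_lt).1 (h1.trans hW)
  have hm : m = fun i => p ^ a i := funext hma
  subst hm
  let e2 : ι ≃ Fin (Fintype.card ι) := Fintype.equivFin ι
  refine ⟨⟨⟨Fintype.card ι, by omega⟩, fun j => ⟨a (e2.symm j), by have := ha (e2.symm j); omega⟩⟩,
    ⟨e1.trans (LinearEquiv.piCongrLeft' ℤ (fun i => ZMod (p ^ a i)) e2).toAddEquiv⟩⟩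

theorem card_Ab (p n M : ℕ) (hp : p.Prime) (x : Idx n M) : Nat.card (Ab p n M x) ≤ p ^ (n * M) := by
  rw [Nat.card_pi]
  calc ∏ j : Fin x.1, Nat.card (ZMod (p ^ (x.2 j : ℕ))) ≤ ∏ j : Fin x.1, p ^ n := by
        refine Finset.prod_le_prod' fun j _ => ?_
        rw [Nat.card_zmod]
        exact Nat.pow_le_pow_right hp.pos (by have := (x.2 j).2; omega)
    _ = (p ^ n) ^ (x.1 : ℕ) := by simp
    _ ≤ (p ^ n) ^ M := Nat.pow_le_pow_right (pow_pos hp.pos _) (by have := x.1.2; omega)
    _ = p ^ (n * M) := by rw [← pow_mul]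

instance neZero_pow (p k : ℕ) [hp : Fact p.Prime] : NeZero (p ^ k) :=
  ⟨pow_ne_zero _ hp.out.ne_zero⟩

/-- automorphism groups -/
abbrev Au (A : Type) [AddCommGroup A] : Type := A ≃ₗ[ℤ] A

theorem card_Aut (p n M : ℕ) [hp : Fact p.Prime] (x : Idx n M) :
    Finite (Au (Ab p n M x)) ∧ Nat.card (Au (Ab p n M x)) ≤ p ^ (n * M * M) := by
  classical
  let φ : Au (Ab p n M x) → (Fin x.1 → Ab p n M x) := fun σ j => σ (Pi.single j 1)
  have hφ : Function.Injective φ := by
    intro σ τ h
    have h1 : (σ : Ab p n M x →ₗ[ℤ] Ab p n M x).toAddMonoidHom =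
        (τ : Ab p n M x →ₗ[ℤ] Ab p n M x).toAddMonoidHom := by
      refine AddMonoidHom.functions_ext _ _ _ ?_
      intro j z
      obtain ⟨z, rfl⟩ := ZMod.intCast_surjective z
      have h2 : (Pi.single j (z : ZMod (p ^ (x.2 j : ℕ))) : Ab p n M x) = z • Pi.single j 1 := by
        rw [← Pi.single_smul]
        simp
      rw [h2, map_zsmul, map_zsmul]
      congr 1
      exact congrFun h j
    apply LinearEquiv.ext
    intro v
    exact DFunLike.congr_fun h1 v
  haveI : Finite (Ab p n M x) := Pi.finite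
  refine ⟨Finite.of_injective φ hφ, (Nat.card_le_card_of_injective φ hφ).trans ?_⟩
  rw [Nat.card_fun, Nat.card_fin]
  calc Nat.card (Ab p n M x) ^ (x.1 : ℕ) ≤ (p ^ (n * M)) ^ (x.1 : ℕ) :=
        Nat.pow_le_pow_left (card_Ab p n M hp.out x) _
    _ ≤ (p ^ (n * M)) ^ M :=
        Nat.pow_le_pow_right (pow_pos hp.out.pos _) (by have := x.1.2; omega)
    _ = p ^ (n * M * M) := by rw [← pow_mul]

/-- the universal group -/
def Un (p n M : ℕ) : Type := ∀ x : Idx n M, Au (Ab p n M x)

instance (p n M : ℕ) : Group (Un p n M) :=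
  inferInstanceAs (Group (∀ x : Idx n M, Au (Ab p n M x)))

theorem card_Un (p n M : ℕ) [hp : Fact p.Prime] :
    Finite (Un p n M) ∧ Nat.card (Un p n M) ≤ p ^ (n * M * M * Fintype.card (Idx n M)) := by
  haveI : ∀ x, Finite (Au (Ab p n M x)) := fun x => (card_Aut p n M x).1
  refine ⟨Pi.finite, ?_⟩
  unfold Un
  rw [Nat.card_pi]
  calc ∏ x : Idx n M, Nat.card (Au (Ab p n M x)) ≤ ∏ x : Idx n M, p ^ (n * M * M) :=
        Finset.prod_le_prod' fun x _ => (card_Aut p n M x).2
    _ = p ^ (n * M * M * Fintype.card (Idx n M)) := by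
        rw [Finset.prod_const, Finset.card_univ, ← pow_mul]

/-- the action on the translation module -/
def rho {G A : Type} [Group G] [AddCommGroup A] (lam : G → A) : G →* Au (Wt lam) :=
  MonoidHom.mk' (fun g =>
    { toFun := fun v => ⟨tr g v, Wt_stable lam g v.2⟩
      invFun := fun v => ⟨tr g⁻¹ v, Wt_stable lam g⁻¹ v.2⟩
      left_inv := fun v => by
        apply Subtype.ext
        show tr g⁻¹ (tr g (v : G → A)) = v
        rw [← tr_mul, inv_mul_cancel, tr_one]
      right_inv := fun v => by
        apply Subtype.ext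
        show tr g (tr g⁻¹ (v : G → A)) = v
        rw [← tr_mul, mul_inv_cancel, tr_one]
      map_add' := fun v w => by
        apply Subtype.ext
        exact map_add (tr g) _ _
      map_smul' := fun m v => by
        apply Subtype.ext
        exact map_zsmul (tr g) m _ }) (by
    intro g h
    apply LinearEquiv.ext
    intro v
    apply Subtype.ext
    exact tr_mul g h (v : G → A))

theorem rho_injective {G A : Type} [Group G] [AddCommGroup A] (lam : G → A)
    (hlam : ∀ g, lam g = 0 ↔ g = 1) : Function.Injective (rho lam) := by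
  rw [injective_iff_map_eq_one]
  intro g hg
  have h1 : lam ∈ Wt lam := AddSubgroup.subset_closure ⟨1, tr_one lam⟩
  have h2 : rho lam g ⟨lam, h1⟩ = ⟨lam, h1⟩ := by rw [hg]; rfl
  have h3 : tr g lam = lam := congrArg Subtype.val h2
  have h4 := congrFun h3 1
  rw [tr_apply, one_mul, (hlam 1).2 rfl] at h4
  exact (hlam g).1 h4

/-- conjugation by an isomorphism -/
def cj {W W' : Type} [AddCommGroup W] [AddCommGroup W'] (e : W ≃+ W') : Au W →* Au W' :=
  MonoidHom.mk' (fun σ => (e.toIntLinearEquiv.symm.trans σ).trans e.toIntLinearEquiv) (by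
    intro σ τ
    apply LinearEquiv.ext
    intro v
    show e (σ (τ (e.symm v))) = e (σ (e.symm (e (τ (e.symm v)))))
    rw [e.symm_apply_apply])

theorem cj_injective {W W' : Type} [AddCommGroup W] [AddCommGroup W'] (e : W ≃+ W') :
    Function.Injective (cj e) := by
  intro σ τ h
  apply LinearEquiv.ext
  intro v
  have h1 : cj e σ (e v) = cj e τ (e v) := by rw [h]
  have h2 : e (σ (e.symm (e v))) = e (τ (e.symm (e v))) := h1
  rw [e.symm_apply_apply] at h2
  exact e.injective h2

/-- every group of order `p ^ n`, `n < p`, embeds in the universal group -/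
theorem exists_hom_Un {p n : ℕ} [hp : Fact p.Prime] {G : Type} [Group G] [Finite G]
    (hG : Nat.card G = p ^ n) (hn : n < p) :
    ∃ f : G →* Un p n (n * (n + 1) ^ (n + 1)), Function.Injective f := by
  classical
  obtain ⟨A, _, lam, hA, hlam, hPD⟩ := exists_poly' hG hn
  obtain ⟨S, hS, hSt⟩ := exists_gens hG
  obtain ⟨B, hB, hWB⟩ := Wt_fin n S hS hSt (n + 1) lam hPD
  have hqX : ∀ v : G → A, p ^ n • v = 0 := fun v => by funext x; exact hA _
  obtain ⟨hWf, hWc⟩ := card_closure (p ^ n) (pow_ne_zero _ hp.out.ne_zero) hqX B (Wt lam) hWB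
  haveI := hWf
  have hWc' : Nat.card (Wt lam) ≤ p ^ (n * (n + 1) ^ (n + 1)) := by
    refine hWc.trans ?_
    rw [← pow_mul]
    exact Nat.pow_le_pow_right hp.out.pos (Nat.mul_le_mul_left _ hB)
  obtain ⟨x, ⟨e⟩⟩ := classify (p := p) (n := n) (W := Wt lam)
    (fun w => by apply Subtype.ext; exact hqX _) hWc'
  let f : G →* Un p n (n * (n + 1) ^ (n + 1)) :=
    ((MonoidHom.mulSingle (fun x => Au (Ab p n (n * (n + 1) ^ (n + 1)) x)) x).comp (cj e)).comp
      (rho lam)
  refine ⟨f, ?_⟩
  intro g h hgh
  have h1 : Pi.mulSingle (M := fun x => Au (Ab p n (n * (n + 1) ^ (n + 1)) x)) x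
    (cj e (rho lam g)) = Pi.mulSingle x (cj e (rho lam h)) := hgh
  exact rho_injective lam hlam (cj_injective e (Pi.mulSingle_injective x h1))

end Pool.Agent.H596Q
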