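import Pool.Agent.H596Q.Ab

set_option autoImplicit false
set_option linter.all false

/-!
# Polynomial paths
-/

open scoped commutatorElement

namespace Pool.Agent.H596Q

section

variable {K : Type} [Group K] {c : ℕ} (Φ : Filt K c)

/-- polynomial paths starting at `1` -/
def Q : Subgroup (ℤ → K) where
  carrier := {g | g ∈ Pol ℤ Φ 0 ∧ g 0 = 1}
  mul_mem' := by
    rintro a b ⟨ha, ha0⟩ ⟨hb, hb0⟩
    exact ⟨(Pol ℤ Φ 0).mul_mem ha hb, by simp [ha0, hb0]⟩
  one_mem' := ⟨(Pol ℤ Φ 0).one_mem, rfl⟩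
  inv_mem' := by
    rintro a ⟨ha, ha0⟩
    exact ⟨(Pol ℤ Φ 0).inv_mem ha, by simp [ha0]⟩

/-- polynomial surfaces trivial on the axes -/
def T : Subgroup (ℤ × ℤ → K) where
  carrier := {g | g ∈ Pol (ℤ × ℤ) Φ 0 ∧ (∀ t, g (0, t) = 1) ∧ ∀ s, g (s, 0) = 1}
  mul_mem' := by
    rintro a b ⟨ha, ha0, ha1⟩ ⟨hb, hb0, hb1⟩
    exact ⟨(Pol (ℤ × ℤ) Φ 0).mul_mem ha hb, fun t => by simp [ha0, hb0], fun t => by
      simp [ha1, hb1]⟩
  one_mem' := ⟨(Pol (ℤ × ℤ) Φ 0).one_mem, fun _ => rfl, fun _ => rfl⟩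
  inv_mem' := by
    rintro a ⟨ha, ha0, ha1⟩
    exact ⟨(Pol (ℤ × ℤ) Φ 0).inv_mem ha, fun t => by simp [ha0], fun t => by simp [ha1]⟩

/-- restriction to the diagonal -/
def dg (K : Type) [Group K] : (ℤ × ℤ → K) →* (ℤ → K) where
  toFun g := fun t => g (t, t)
  map_one' := rfl
  map_mul' _ _ := rfl

/-- paths of order two at the origin -/
def Q2 : Subgroup (ℤ → K) := (T Φ).map (dg K)

theorem comm_mem_Q2 {g g' : ℤ → K} (hg : g ∈ Q Φ) (hg' : g' ∈ Q Φ) : ⁅g, g'⁆ ∈ Q2 Φ := by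
  let G : ℤ × ℤ → K := ⁅(fun x : ℤ × ℤ => g (AddMonoidHom.fst ℤ ℤ x)),
    (fun x : ℤ × ℤ => g' (AddMonoidHom.snd ℤ ℤ x))⁆
  refine ⟨G, ⟨?_, ?_, ?_⟩, ?_⟩
  · exact Pol_comm Φ (Pol_comp Φ _ hg.1) (Pol_comp Φ _ hg'.1)
  · intro t
    simp [G, commutatorElement_def, hg.2]
  · intro t
    simp [G, commutatorElement_def, hg'.2]
  · rfl

/-- the abelian group of paths modulo paths of order two -/
abbrev V : Type := Additive (Abelianization (Q Φ) ⧸ ((Q2 Φ).subgroupOf (Q Φ)).map Abelianization.of)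

/-- the class of a path -/
def cls (g : Q Φ) : V Φ := Additive.ofMul (QuotientGroup.mk (Abelianization.of g))

theorem cls_mul (g g' : Q Φ) : cls Φ (g * g') = cls Φ g + cls Φ g' := by
  unfold cls
  rw [map_mul, QuotientGroup.mk_mul]
  rfl

theorem cls_one : cls Φ 1 = 0 := by
  have := cls_mul Φ 1 1
  rw [mul_one] at this
  simpa using this

theorem cls_inv (g : Q Φ) : cls Φ g⁻¹ = - cls Φ g := by
  have := cls_mul Φ g g⁻¹
  rw [mul_inv_cancel, cls_one] at this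
  exact (neg_eq_of_add_eq_zero_right this.symm).symm

theorem cls_eq_zero {g : Q Φ} : cls Φ g = 0 ↔ (g : ℤ → K) ∈ Q2 Φ := by
  constructor
  · intro h
    have h1 : (QuotientGroup.mk (Abelianization.of g) :
      Abelianization (Q Φ) ⧸ ((Q2 Φ).subgroupOf (Q Φ)).map Abelianization.of) = 1 := h
    rw [QuotientGroup.eq_one_iff] at h1
    obtain ⟨x, hx, hxg⟩ := h1
    have h2 : Abelianization.of (x⁻¹ * g) = 1 := by
      rw [map_mul, map_inv, hxg, inv_mul_cancel]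
    have h3 : x⁻¹ * g ∈ commutator (Q Φ) := by
      rw [← Abelianization.ker_of]
      exact h2
    have h4 : commutator (Q Φ) ≤ (Q2 Φ).subgroupOf (Q Φ) := by
      rw [commutator_def, Subgroup.commutator_le]
      intro a _ b _
      exact comm_mem_Q2 Φ a.2 b.2
    have h5 := ((Q2 Φ).subgroupOf (Q Φ)).mul_mem hx (h4 h3)
    rw [mul_inv_cancel_left] at h5
    exact h5
  · intro h
    have h1 : (QuotientGroup.mk (Abelianization.of g) :
      Abelianization (Q Φ) ⧸ ((Q2 Φ).subgroupOf (Q Φ)).map Abelianization.of) = 1 := by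
      rw [QuotientGroup.eq_one_iff]
      exact ⟨g, h, rfl⟩
    exact h1

theorem pow_mem_Q {i j : ℕ} {κ : K} (hκ : κ ∈ Φ.F i) (hj : 1 ≤ j) (hji : j ≤ i) :
    (fun t : ℤ => κ ^ (t ^ j)) ∈ Q Φ := by
  refine ⟨Pol_zpow' Φ hκ (Deg_pow (AddMonoidHom.id ℤ) j) hji, ?_⟩
  simp [show j ≠ 0 by omega]

theorem path_mem_Q {κ : K} (hκ : κ ∈ Φ.F 1) : (fun t : ℤ => κ ^ t) ∈ Q Φ := by
  have := pow_mem_Q Φ hκ le_rfl le_rfl
  simpa using this

theorem pow_mem_Q2 {i j : ℕ} {κ : K} (hκ : κ ∈ Φ.F i) (hj : 2 ≤ j) (hji : j ≤ i) :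
    (fun t : ℤ => κ ^ (t ^ j)) ∈ Q2 Φ := by
  refine ⟨fun x => κ ^ (AddMonoidHom.fst ℤ ℤ x ^ (j - 1) * AddMonoidHom.snd ℤ ℤ x ^ 1),
    ⟨?_, ?_, ?_⟩, ?_⟩
  · exact Pol_zpow' Φ hκ (Deg_mon (AddMonoidHom.fst ℤ ℤ) (AddMonoidHom.snd ℤ ℤ) (j - 1) 1) (by omega)
  · intro t
    simp [show j - 1 ≠ 0 by omega]
  · intro s
    simp
  · funext t
    show κ ^ (t ^ (j - 1) * t ^ 1) = κ ^ t ^ j
    rw [← pow_add, Nat.sub_add_cancel (by omega)]

theorem sum_fst_zero {A : Type} [AddCommGroup A] (k : ℕ → ℕ → A) (N : ℕ) (t : ℤ) :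
    ∑ n ∈ Finset.range N, ∑ ij ∈ Finset.HasAntidiagonal.antidiagonal n,
      ((0 : ℤ) ^ ij.1 * t ^ ij.2) • k ij.1 ij.2 = ∑ n ∈ Finset.range N, (t ^ n) • k 0 n := by
  refine Finset.sum_congr rfl fun n _ => ?_
  rw [Finset.sum_eq_single (0, n)]
  · simp
  · rintro ⟨i, j⟩ hij hne
    have h1 := Finset.HasAntidiagonal.mem_antidiagonal.1 hij
    simp only at h1
    have h2 : i ≠ 0 := by
      rintro rfl
      apply hne
      ext
      · rfl
      · simp only; omega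
    simp [h2]
  · intro h
    exact absurd (Finset.HasAntidiagonal.mem_antidiagonal.2 (by simp)) h

theorem sum_snd_zero {A : Type} [AddCommGroup A] (k : ℕ → ℕ → A) (N : ℕ) (t : ℤ) :
    ∑ n ∈ Finset.range N, ∑ ij ∈ Finset.HasAntidiagonal.antidiagonal n,
      (t ^ ij.1 * (0 : ℤ) ^ ij.2) • k ij.1 ij.2 = ∑ n ∈ Finset.range N, (t ^ n) • k n 0 := by
  refine Finset.sum_congr rfl fun n _ => ?_
  rw [Finset.sum_eq_single (n, 0)]
  · simp
  · rintro ⟨i, j⟩ hij hne
    have h1 := Finset.HasAntidiagonal.mem_antidiagonal.1 hij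
    simp only at h1
    have h2 : j ≠ 0 := by
      rintro rfl
      apply hne
      ext
      · simp only; omega
      · rfl
    simp [h2]
  · intro h
    exact absurd (Finset.HasAntidiagonal.mem_antidiagonal.2 (by simp)) h

theorem sum_diag {A : Type} [AddCommGroup A] (k : ℕ → ℕ → A) (N : ℕ) (t : ℤ) :
    ∑ n ∈ Finset.range N, ∑ ij ∈ Finset.HasAntidiagonal.antidiagonal n,
      (t ^ ij.1 * t ^ ij.2) • k ij.1 ij.2 =
      ∑ n ∈ Finset.range N, (t ^ n) • ∑ ij ∈ Finset.HasAntidiagonal.antidiagonal n, k ij.1 ij.2 := by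
  refine Finset.sum_congr rfl fun n _ => ?_
  rw [Finset.smul_sum]
  refine Finset.sum_congr rfl fun ij hij => ?_
  rw [← pow_add, Finset.HasAntidiagonal.mem_antidiagonal.1 hij]

/-- the correction term -/
theorem exists_corr {A : Type} [AddCommGroup A] {ψ : K → A} {i : ℕ} (hi : 1 ≤ i)
    (h1 : ∀ x ∈ Φ.F i, ∀ y ∈ Φ.F i, ψ (x * y) = ψ x + ψ y)
    (h3 : ∀ a, ∃ x ∈ Φ.F i, ψ x = a) (k : ℕ → ℕ → A)
    (hk0 : ∀ n < i + 1, k 0 n = 0) (hk1 : ∀ n < i + 1, k n 0 = 0)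
    (hk2 : ∀ n < i + 1, ∑ ij ∈ Finset.HasAntidiagonal.antidiagonal n, k ij.1 ij.2 = 0) :
    ∃ w ∈ T Φ, (∀ x, w x ∈ Φ.F i) ∧ (∀ t, w (t, t) = 1) ∧
      ∀ x : ℤ × ℤ, ψ (w x) = ∑ n ∈ Finset.range (i + 1),
        ∑ ij ∈ Finset.HasAntidiagonal.antidiagonal n, (x.1 ^ ij.1 * x.2 ^ ij.2) • k ij.1 ij.2 := by
  let S : AddSubgroup (ℤ × ℤ → A) :=
    { carrier := {f | ∃ w ∈ T Φ, (∀ x, w x ∈ Φ.F i) ∧ (∀ t, w (t, t) = 1) ∧ ∀ x, ψ (w x) = f x}
      add_mem' := by
        rintro f g ⟨w, hw, hw1, hw2, hw3⟩ ⟨v, hv, hv1, hv2, hv3⟩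
        refine ⟨w * v, (T Φ).mul_mem hw hv, fun x => (Φ.F i).mul_mem (hw1 x) (hv1 x),
          fun t => by simp [hw2, hv2], fun x => ?_⟩
        rw [Pi.mul_apply, h1 _ (hw1 x) _ (hv1 x), hw3, hv3, Pi.add_apply]
      zero_mem' := ⟨1, (T Φ).one_mem, fun _ => (Φ.F i).one_mem, fun _ => rfl, fun _ => psi_one Φ h1⟩
      neg_mem' := by
        rintro f ⟨w, hw, hw1, hw2, hw3⟩
        refine ⟨w⁻¹, (T Φ).inv_mem hw, fun x => (Φ.F i).inv_mem (hw1 x),
          fun t => by simp [hw2], fun x => ?_⟩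
        rw [Pi.inv_apply, psi_inv Φ h1 _ (hw1 x), hw3, Pi.neg_apply] }
  have key : (fun x : ℤ × ℤ => ∑ n ∈ Finset.range (i + 1),
        ∑ ij ∈ Finset.HasAntidiagonal.antidiagonal n, (x.1 ^ ij.1 * x.2 ^ ij.2) • k ij.1 ij.2) =
      ∑ n ∈ Finset.range (i + 1), ∑ ij ∈ Finset.HasAntidiagonal.antidiagonal n,
        fun x : ℤ × ℤ => (x.1 ^ ij.1 * x.2 ^ ij.2 - x.1 ^ (n - 1) * x.2) • k ij.1 ij.2 := by
    funext x
    rw [Finset.sum_apply]
    refine Finset.sum_congr rfl fun n hn => ?_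
    rw [Finset.sum_apply]
    have h4 := hk2 n (Finset.mem_range.1 hn)
    have h5 : ∑ ij ∈ Finset.HasAntidiagonal.antidiagonal n, (x.1 ^ (n - 1) * x.2) • k ij.1 ij.2 = 0 := by
      rw [← Finset.smul_sum, h4, smul_zero]
    rw [← sub_zero (∑ ij ∈ Finset.HasAntidiagonal.antidiagonal n, (x.1 ^ ij.1 * x.2 ^ ij.2) • k ij.1 ij.2),
      ← h5, ← Finset.sum_sub_distrib]
    refine Finset.sum_congr rfl fun ij _ => ?_
    rw [sub_smul]
  have hmem : (fun x : ℤ × ℤ => ∑ n ∈ Finset.range (i + 1),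
        ∑ ij ∈ Finset.HasAntidiagonal.antidiagonal n, (x.1 ^ ij.1 * x.2 ^ ij.2) • k ij.1 ij.2) ∈ S := by
    rw [key]
    refine S.sum_mem fun n hn => S.sum_mem fun ij hij => ?_
    have hn' := Finset.mem_range.1 hn
    obtain ⟨a, b⟩ := ij
    have hab := Finset.HasAntidiagonal.mem_antidiagonal.1 hij
    simp only at hab
    rcases Nat.eq_zero_or_pos a with rfl | ha
    · have : (fun x : ℤ × ℤ => (x.1 ^ 0 * x.2 ^ b - x.1 ^ (n - 1) * x.2) • k 0 b) = 0 := by
        funext x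
        rw [hk0 b (by omega), smul_zero]; rfl
      simp only
      rw [this]
      exact S.zero_mem
    rcases Nat.eq_zero_or_pos b with rfl | hb
    · have : (fun x : ℤ × ℤ => (x.1 ^ a * x.2 ^ 0 - x.1 ^ (n - 1) * x.2) • k a 0) = 0 := by
        funext x
        rw [hk1 a (by omega), smul_zero]; rfl
      simp only
      rw [this]
      exact S.zero_mem
    obtain ⟨κ, hκ, hκk⟩ := h3 (k a b)
    refine ⟨fun x => κ ^ (x.1 ^ a * x.2 ^ b - x.1 ^ (n - 1) * x.2), ⟨?_, ?_, ?_⟩, ?_, ?_, ?_⟩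
    · have d1 := Deg_mon (AddMonoidHom.fst ℤ ℤ) (AddMonoidHom.snd ℤ ℤ) a b
      have d2 := Deg_neg _ (Deg_mon (AddMonoidHom.fst ℤ ℤ) (AddMonoidHom.snd ℤ ℤ) (n - 1) 1)
      have e1 : n - 1 + 1 = a + b := by omega
      rw [e1] at d2
      have d3 := Deg_add _ d1 d2
      have h6 := Pol_zpow' Φ hκ d3 (by omega)
      have h7 : (fun x : ℤ × ℤ => κ ^ ((fun x => (AddMonoidHom.fst ℤ ℤ) x ^ a * (AddMonoidHom.snd ℤ ℤ) x ^ b) +
        -fun x => (AddMonoidHom.fst ℤ ℤ) x ^ (n - 1) * (AddMonoidHom.snd ℤ ℤ) x ^ 1) x) =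
        fun x => κ ^ (x.1 ^ a * x.2 ^ b - x.1 ^ (n - 1) * x.2) := by
        funext x
        simp [sub_eq_add_neg]
      rw [h7] at h6
      exact h6
    · intro t
      simp [show a ≠ 0 by omega, show n - 1 ≠ 0 by omega]
    · intro t
      simp [show b ≠ 0 by omega]
    · intro x
      exact (Φ.F i).zpow_mem hκ _
    · intro t
      have : t ^ a * t ^ b - t ^ (n - 1) * t = 0 := by
        rw [← pow_add, ← pow_succ, hab, Nat.sub_add_cancel (by omega), sub_self]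
      simp only
      rw [this, zpow_zero]
    · intro x
      simp only
      rw [psi_zpow Φ h1 _ hκ, hκk]
  obtain ⟨w, hw, hw1, hw2, hw3⟩ := hmem
  exact ⟨w, hw, hw1, hw2, hw3⟩

theorem nontriv {q : ℕ} (hq : ∀ x : K, x ^ q = 1)
    (hcop : ∀ m : ℕ, 1 ≤ m → m ≤ c → m.Coprime q) {h : K} (hh : h ∈ Φ.F 1)
    (hh2 : (fun t : ℤ => h ^ t) ∈ Q2 Φ) : h = 1 := by
  have key : ∀ i, i ≤ c → h ∈ Φ.F (i + 1) ∧ ∃ g ∈ T Φ, (∀ x, g x ∈ Φ.F (i + 1)) ∧
      ∀ t : ℤ, g (t, t) = h ^ t := by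
    intro i
    induction i with
    | zero =>
      intro _
      obtain ⟨g, hg, hgh⟩ := hh2
      refine ⟨hh, g, hg, fun x => Φ.zero (((mem_Pol Φ).1 hg.1).1 x), fun t => congrFun hgh t⟩
    | succ i ih =>
      intro hi
      obtain ⟨hhi, g, hg, hgv, hgd⟩ := ih (by omega)
      obtain ⟨A, _, ψ, h1, h2, h3⟩ := exists_quot Φ (i + 1) (by omega)
      have hA := psi_div Φ hq hcop h1 h3
      have hR : Rel Φ ψ (i + 1) 0 (fun x => ψ (g x)) := ⟨g, hg.1, hgv, fun _ => rfl⟩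
      obtain ⟨k, hk⟩ := twoD hA (i + 1 + 1) (by omega) (fun x => ψ (g x)) (by
        intro a b hab
        have r1 := Rel_iter Φ h1 hR ((0 : ℤ), (1 : ℤ)) b
        have r2 := Rel_iter Φ h1 r1 ((1 : ℤ), (0 : ℤ)) a
        exact Rel_zero Φ h2 r2 (by omega))
      have hk0 : ∀ n < i + 1 + 1, k 0 n = 0 := by
        refine uniq hA (i + 1 + 1) (by omega) _ fun t => ?_
        rw [← sum_fst_zero, ← hk (0, t), hg.2.1 t, psi_one Φ h1]
      have hk1 : ∀ n < i + 1 + 1, k n 0 = 0 := by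
        refine uniq hA (i + 1 + 1) (by omega) (fun n => k n 0) fun t => ?_
        rw [← sum_snd_zero, ← hk (t, 0), hg.2.2 t, psi_one Φ h1]
      have hkd : ∀ n < i + 1 + 1, (∑ ij ∈ Finset.HasAntidiagonal.antidiagonal n, k ij.1 ij.2) -
          (if n = 1 then ψ h else 0) = 0 := by
        refine uniq hA (i + 1 + 1) (by omega) _ fun t => ?_
        have e1 : ∀ n ∈ Finset.range (i + 1 + 1), (t ^ n) •
            ((∑ ij ∈ Finset.HasAntidiagonal.antidiagonal n, k ij.1 ij.2) -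
              (if n = 1 then ψ h else 0)) =
            (t ^ n) • (∑ ij ∈ Finset.HasAntidiagonal.antidiagonal n, k ij.1 ij.2) -
              (if n = 1 then t • ψ h else 0) := by
          intro n _
          rw [smul_sub]
          congr 1
          split_ifs with hn
          · rw [hn, pow_one]
          · rw [smul_zero]
        rw [Finset.sum_congr rfl e1, Finset.sum_sub_distrib, ← sum_diag, ← hk (t, t), hgd,
          psi_zpow Φ h1 _ hhi, Finset.sum_ite_eq' _ 1, if_pos (Finset.mem_range.2 (by omega)),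
          sub_self]
      have hψ : ψ h = 0 := by
        have := hkd 1 (by omega)
        rw [if_pos rfl] at this
        have e2 : ∑ ij ∈ Finset.HasAntidiagonal.antidiagonal 1, k ij.1 ij.2 = k 0 1 + k 1 0 := by
          rw [Finset.Nat.antidiagonal_succ]
          simp
        rw [e2, hk0 1 (by omega), hk1 1 (by omega), add_zero, zero_sub, neg_eq_zero] at this
        exact this
      have hk2 : ∀ n < i + 1 + 1, ∑ ij ∈ Finset.HasAntidiagonal.antidiagonal n, k ij.1 ij.2 = 0 := by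
        intro n hn
        have := hkd n hn
        rw [hψ, ite_self, sub_zero] at this
        exact this
      obtain ⟨w, hw, hw1, hw2, hw3⟩ := exists_corr Φ (by omega) h1 h3 k hk0 hk1 hk2
      refine ⟨(h2 _ hhi).1 hψ, g * w⁻¹, (T Φ).mul_mem hg ((T Φ).inv_mem hw), fun x => ?_,
        fun t => ?_⟩
      · refine (h2 _ ((Φ.F (i + 1)).mul_mem (hgv x) ((Φ.F (i + 1)).inv_mem (hw1 x)))).1 ?_
        rw [h1 _ (hgv x) _ ((Φ.F (i + 1)).inv_mem (hw1 x)), psi_inv Φ h1 _ (hw1 x), hw3, ← hk x]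
        simp
      · rw [Pi.mul_apply, Pi.inv_apply, hw2, hgd, inv_one, mul_one]
  exact Φ.bot _ (key c le_rfl).1

/-- generation of the group of paths -/
theorem gen {q : ℕ} (hq : ∀ x : K, x ^ q = 1)
    (hcop : ∀ m : ℕ, 1 ≤ m → m ≤ c → m.Coprime q) (S : ℕ → Set K)
    (hS : ∀ i, Φ.F i = Subgroup.closure (S i)) (𝒢 : Subgroup (ℤ → K))
    (hg1 : ∀ i j, ∀ κ ∈ Φ.F i, 2 ≤ j → j ≤ i → (fun t : ℤ => κ ^ (t ^ j)) ∈ 𝒢)
    (hg2 : ∀ i, 1 ≤ i → ∀ s ∈ S i, (fun t : ℤ => s ^ t) ∈ 𝒢) : Q Φ ≤ 𝒢 := by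
  have key : ∀ d i, i + d = c + 1 → 1 ≤ i → ∀ g ∈ Q Φ, (∀ t, g t ∈ Φ.F i) → g ∈ 𝒢 := by
    intro d
    induction d with
    | zero =>
      intro i hi _ g hg hv
      have : g = 1 := by
        funext t
        have h1 := hv t
        rw [show i = c + 1 by omega] at h1
        exact Φ.bot _ h1
      rw [this]
      exact 𝒢.one_mem
    | succ d ih =>
      intro i hi hi1 g hg hv
      obtain ⟨A, _, ψ, h1, h2, h3⟩ := exists_quot Φ i hi1
      have hA := psi_div Φ hq hcop h1 h3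
      have hR : Rel Φ ψ i 0 (fun x => ψ (g x)) := ⟨g, hg.1, hv, fun _ => rfl⟩
      obtain ⟨k, hk⟩ := oneD hA (i + 1) (by omega) (fun x => ψ (g x))
        (Rel_zero Φ h2 (Rel_iter Φ h1 hR (1 : ℤ) (i + 1)) (by omega))
      have hk0 : k 0 = 0 := by
        have := hk 0
        rw [hg.2, psi_one Φ h1, Finset.sum_eq_single 0] at this
        · simpa using this.symm
        · intro n _ hn
          simp [hn]
        · intro h
          simp at h
      let W : AddSubgroup (ℤ → A) :=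
        { carrier := {f | ∃ w ∈ Q Φ, w ∈ 𝒢 ∧ (∀ x, w x ∈ Φ.F i) ∧ ∀ x, ψ (w x) = f x}
          add_mem' := by
            rintro f g ⟨w, hw, hw1, hw2, hw3⟩ ⟨v, hv, hv1, hv2, hv3⟩
            refine ⟨w * v, (Q Φ).mul_mem hw hv, 𝒢.mul_mem hw1 hv1,
              fun x => (Φ.F i).mul_mem (hw2 x) (hv2 x), fun x => ?_⟩
            rw [Pi.mul_apply, h1 _ (hw2 x) _ (hv2 x), hw3, hv3, Pi.add_apply]
          zero_mem' := ⟨1, (Q Φ).one_mem, 𝒢.one_mem, fun _ => (Φ.F i).one_mem,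
            fun _ => psi_one Φ h1⟩
          neg_mem' := by
            rintro f ⟨w, hw, hw1, hw2, hw3⟩
            refine ⟨w⁻¹, (Q Φ).inv_mem hw, 𝒢.inv_mem hw1, fun x => (Φ.F i).inv_mem (hw2 x),
              fun x => ?_⟩
            rw [Pi.inv_apply, psi_inv Φ h1 _ (hw2 x), hw3, Pi.neg_apply] }
      have hlin : ∀ a : A, (fun t : ℤ => t • a) ∈ W := by
        have h5 : ∀ x ∈ Subgroup.closure (S i), (fun t : ℤ => t • ψ x) ∈ W := by
          intro x hx
          refine Subgroup.closure_induction (p := fun x _ => (fun t : ℤ => t • ψ x) ∈ W)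
            ?_ ?_ ?_ ?_ hx
          · intro s hs
            have hsF : s ∈ Φ.F i := by rw [hS i]; exact Subgroup.subset_closure hs
            exact ⟨fun t => s ^ t, path_mem_Q Φ (F_anti Φ hi1 hsF), hg2 i hi1 s hs,
              fun t => (Φ.F i).zpow_mem hsF _, fun t => psi_zpow Φ h1 _ hsF _⟩
          · have : (fun t : ℤ => t • ψ 1) = 0 := by
              funext t
              rw [psi_one Φ h1, smul_zero]; rfl
            rw [this]
            exact W.zero_mem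
          · intro x y hx hy hx' hy'
            rw [← hS i] at hx hy
            have : (fun t : ℤ => t • ψ (x * y)) = (fun t : ℤ => t • ψ x) + fun t : ℤ => t • ψ y := by
              funext t
              rw [h1 _ hx _ hy, smul_add]; rfl
            rw [this]
            exact W.add_mem hx' hy'
          · intro x hx hx'
            rw [← hS i] at hx
            have : (fun t : ℤ => t • ψ x⁻¹) = -(fun t : ℤ => t • ψ x) := by
              funext t
              rw [psi_inv Φ h1 _ hx, smul_neg]; rfl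
            rw [this]
            exact W.neg_mem hx'
        intro a
        obtain ⟨x, hx, rfl⟩ := h3 a
        exact h5 x (by rw [← hS i]; exact hx)
      have hmem : (fun x => ψ (g x)) ∈ W := by
        have e1 : (fun x => ψ (g x)) = ∑ n ∈ Finset.range (i + 1), fun t : ℤ => (t ^ n) • k n := by
          funext t
          rw [Finset.sum_apply]
          exact hk t
        rw [e1]
        refine W.sum_mem fun n hn => ?_
        have hn' := Finset.mem_range.1 hn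
        rcases Nat.lt_or_ge n 1 with h | h
        · have h6 : n = 0 := by omega
          subst h6
          have : (fun t : ℤ => (t ^ 0) • k 0) = 0 := by
            funext t
            rw [hk0, smul_zero]; rfl
          rw [this]
          exact W.zero_mem
        rcases Nat.lt_or_ge n 2 with h' | h'
        · have h6 : n = 1 := by omega
          subst h6
          have := hlin (k 1)
          simpa using this
        · obtain ⟨κ, hκ, hκk⟩ := h3 (k n)
          refine ⟨fun t => κ ^ (t ^ n), pow_mem_Q Φ hκ (by omega) (by omega),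
            hg1 i n κ hκ h' (by omega), fun t => (Φ.F i).zpow_mem hκ _, fun t => ?_⟩
          simp only
          rw [psi_zpow Φ h1 _ hκ, hκk]
      obtain ⟨w, hw, hw1, hw2, hw3⟩ := hmem
      have h7 : g * w⁻¹ ∈ 𝒢 := by
        refine ih (i + 1) (by omega) (by omega) _ ((Q Φ).mul_mem hg ((Q Φ).inv_mem hw)) fun t => ?_
        refine (h2 _ ((Φ.F i).mul_mem (hv t) ((Φ.F i).inv_mem (hw2 t)))).1 ?_
        rw [h1 _ (hv t) _ ((Φ.F i).inv_mem (hw2 t)), psi_inv Φ h1 _ (hw2 t), hw3]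
        simp
      have h8 := 𝒢.mul_mem h7 hw1
      rwa [inv_mul_cancel_right] at h8
  intro g hg
  exact key c 1 (by omega) le_rfl g hg fun t => Φ.zero (((mem_Pol Φ).1 hg.1).1 t)

end

end Pool.Agent.H596Q
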