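import Mathlib

set_option autoImplicit false
set_option linter.all false

/-!
# Polynomial maps into filtered groups
-/

open scoped commutatorElement

namespace Pool.Agent.H596Q

/-- a finite filtration of (a subgroup of) a group -/
structure Filt (K : Type) [Group K] (c : ℕ) where
  F : ℕ → Subgroup K
  anti : ∀ i, F (i + 1) ≤ F i
  comm : ∀ i j, ∀ x ∈ F i, ∀ y ∈ F j, ⁅x, y⁆ ∈ F (i + j)
  bot : ∀ x ∈ F (c + 1), x = 1
  zero : F 0 ≤ F 1

section

variable {X K : Type} [AddCommGroup X] [Group K]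

/-- difference operator -/
def D (h : X) (g : X → K) : X → K := fun x => g (x + h) * (g x)⁻¹

theorem D_one (h : X) : D h (1 : X → K) = 1 := by
  funext x
  simp [D]

theorem D_mul (h : X) (f g : X → K) : D h (f * g) = D h f * ⁅f, D h g⁆ * D h g := by
  funext x
  simp only [D, Pi.mul_apply, commutatorElement_def, Pi.inv_apply]
  group

theorem D_inv (h : X) (f : X → K) : D h (f⁻¹) = ⁅f⁻¹, (D h f)⁻¹⁆ * (D h f)⁻¹ := by
  funext x
  simp only [D, Pi.mul_apply, commutatorElement_def, Pi.inv_apply]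
  group

theorem D_comm (h : X) (f g : X → K) : D h ⁅f, g⁆ =
    (D h f * ⁅f, D h g⁆ * (D h f)⁻¹) * ⁅D h f * D h g, ⁅f, g⁆⁆ *
      (⁅f, g⁆ * (⁅D h f, D h g⁆ * (D h g * ⁅D h f, g⁆ * (D h g)⁻¹)) * ⁅f, g⁆⁻¹) := by
  funext x
  simp only [D, Pi.mul_apply, commutatorElement_def, Pi.inv_apply]
  group

/-- truncated polynomial maps -/
def PP (F : ℕ → Subgroup K) : ℕ → ℕ → Set (X → K)
  | 0, i => {g | ∀ x, g x ∈ F i}
  | m + 1, i => {g | (∀ x, g x ∈ F i) ∧ ∀ h, D h g ∈ PP F m (i + 1)}

variable (F : ℕ → Subgroup K)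

theorem PP_val (m i : ℕ) {g : X → K} (hg : g ∈ PP F m i) (x : X) : g x ∈ F i := by
  cases m with
  | zero => exact hg x
  | succ m => exact hg.1 x

theorem PP_trunc (m : ℕ) : ∀ (i : ℕ) {g : X → K}, g ∈ PP F (m + 1) i → g ∈ PP F m i := by
  induction m with
  | zero => intro i g hg; exact hg.1
  | succ m ih => intro i g hg; exact ⟨hg.1, fun h => ih _ (hg.2 h)⟩

theorem PP_anti (hF : ∀ i, F (i + 1) ≤ F i) (m : ℕ) :
    ∀ (i : ℕ) {g : X → K}, g ∈ PP F m (i + 1) → g ∈ PP F m i := by
  induction m with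
  | zero => intro i g hg x; exact hF i (hg x)
  | succ m ih => intro i g hg; exact ⟨fun x => hF i (hg.1 x), fun h => ih _ (hg.2 h)⟩

theorem conj_eq (a b : K) : a * b * a⁻¹ = ⁅a, b⁆ * b := by
  rw [commutatorElement_def]; group

theorem PP_claim (hF : ∀ i, F (i + 1) ≤ F i)
    (hc : ∀ i j, ∀ x ∈ F i, ∀ y ∈ F j, ⁅x, y⁆ ∈ F (i + j)) (m : ℕ) :
    ∃ P : ℕ → Subgroup (X → K), (∀ i g, g ∈ P i ↔ g ∈ PP F m i) ∧ (∀ i, P (i + 1) ≤ P i) ∧
      ∀ i j, ∀ f ∈ P i, ∀ g ∈ P j, ⁅f, g⁆ ∈ P (i + j) := by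
  induction m with
  | zero =>
    refine ⟨fun i => { carrier := PP F 0 i, mul_mem' := ?_, one_mem' := ?_, inv_mem' := ?_ },
      fun i g => Iff.rfl, ?_, ?_⟩
    · intro a b ha hb x
      exact (F i).mul_mem (ha x) (hb x)
    · intro x; exact (F i).one_mem
    · intro a ha x
      exact (F i).inv_mem (ha x)
    · intro i g hg x
      exact hF i (hg x)
    · intro i j f hf g hg x
      exact hc i j _ (hf x) _ (hg x)
  | succ m ih =>
    obtain ⟨P, hP, hPa, hPc⟩ := ih
    have anti : ∀ {i j : ℕ}, i ≤ j → P j ≤ P i := fun {i j} h => antitone_nat_of_succ_le hPa h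
    have conj : ∀ i, ∀ u ∈ P 0, ∀ w ∈ P i, u * w * u⁻¹ ∈ P i := by
      intro i u hu w hw
      rw [conj_eq]
      have := hPc 0 i u hu w hw
      rw [Nat.zero_add] at this
      exact (P i).mul_mem this hw
    have tr : ∀ i {g : X → K}, g ∈ PP F (m + 1) i → g ∈ P i := fun i g hg =>
      (hP i g).2 (PP_trunc F m i hg)
    have dr : ∀ i {g : X → K}, g ∈ PP F (m + 1) i → ∀ h, D h g ∈ P (i + 1) := fun i g hg h =>
      (hP _ _).2 (hg.2 h)
    refine ⟨fun i => { carrier := PP F (m + 1) i, mul_mem' := ?_, one_mem' := ?_, inv_mem' := ?_ },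
      fun i g => Iff.rfl, ?_, ?_⟩
    · intro a b ha hb
      refine ⟨fun x => (F i).mul_mem (ha.1 x) (hb.1 x), fun h => ?_⟩
      rw [← hP, D_mul]
      refine (P _).mul_mem ((P _).mul_mem (dr _ ha h) ?_) (dr _ hb h)
      exact anti (by omega) (hPc i (i + 1) _ (tr _ ha) _ (dr _ hb h))
    · refine ⟨fun x => (F i).one_mem, fun h => ?_⟩
      rw [← hP, D_one]
      exact (P _).one_mem
    · intro a ha
      refine ⟨fun x => (F i).inv_mem (ha.1 x), fun h => ?_⟩
      rw [← hP, D_inv]
      refine (P _).mul_mem ?_ ((P _).inv_mem (dr _ ha h))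
      exact anti (by omega) (hPc i (i + 1) _ ((P _).inv_mem (tr _ ha)) _
        ((P _).inv_mem (dr _ ha h)))
    · intro i g hg
      exact PP_anti F hF (m + 1) i hg
    · intro i j f hf g hg
      refine ⟨fun x => hc i j _ (hf.1 x) _ (hg.1 x), fun h => ?_⟩
      rw [← hP, D_comm]
      have h1 := tr _ hf
      have h2 := tr _ hg
      have h3 := dr _ hf h
      have h4 := dr _ hg h
      have h5 : ⁅f, g⁆ ∈ P (i + j) := hPc i j _ h1 _ h2
      have e0 : ∀ {k : ℕ} {u : X → K}, u ∈ P k → u ∈ P 0 := fun hu => anti (Nat.zero_le _) hu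
      refine (P _).mul_mem ((P _).mul_mem (conj _ _ (e0 h3) _ ?_) ?_)
        (conj _ _ (e0 h5) _ ((P _).mul_mem ?_ (conj _ _ (e0 h4) _ ?_)))
      · exact anti (by omega) (hPc i (j + 1) _ h1 _ h4)
      · refine anti (by omega) (hPc 1 (i + j) _ ((P _).mul_mem (anti (by omega) h3)
          (anti (by omega) h4)) _ h5)
      · exact anti (by omega) (hPc (i + 1) (j + 1) _ h3 _ h4)
      · exact anti (by omega) (hPc (i + 1) j _ h3 _ h2)

end

section

variable {X K : Type} [AddCommGroup X] [Group K] {c : ℕ} (Φ : Filt K c)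

/-- polynomial maps -/
def Pol (X : Type) [AddCommGroup X] (Φ : Filt K c) (i : ℕ) : Subgroup (X → K) where
  carrier := {g | ∀ m, g ∈ PP Φ.F m i}
  mul_mem' := by
    intro a b ha hb m
    obtain ⟨P, hP, -, -⟩ := PP_claim (X := X) Φ.F Φ.anti Φ.comm m
    rw [← hP]
    exact (P i).mul_mem ((hP _ _).2 (ha m)) ((hP _ _).2 (hb m))
  one_mem' := by
    intro m
    obtain ⟨P, hP, -, -⟩ := PP_claim (X := X) Φ.F Φ.anti Φ.comm m
    rw [← hP]
    exact (P i).one_mem
  inv_mem' := by
    intro a ha m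
    obtain ⟨P, hP, -, -⟩ := PP_claim (X := X) Φ.F Φ.anti Φ.comm m
    rw [← hP]
    exact (P i).inv_mem ((hP _ _).2 (ha m))

theorem mem_Pol {i : ℕ} {g : X → K} :
    g ∈ Pol X Φ i ↔ (∀ x, g x ∈ Φ.F i) ∧ ∀ h, D h g ∈ Pol X Φ (i + 1) := by
  constructor
  · intro hg
    exact ⟨hg 0, fun h m => (hg (m + 1)).2 h⟩
  · rintro ⟨h1, h2⟩ m
    cases m with
    | zero => exact h1
    | succ m => exact ⟨h1, fun h => h2 h m⟩

theorem Pol_anti {i j : ℕ} (h : i ≤ j) : Pol X Φ j ≤ Pol X Φ i := by
  refine antitone_nat_of_succ_le (f := fun i => Pol X Φ i) ?_ h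
  intro n g hg m
  exact PP_anti _ Φ.anti m n (hg m)

theorem Pol_comm {i j : ℕ} {f g : X → K} (hf : f ∈ Pol X Φ i) (hg : g ∈ Pol X Φ j) :
    ⁅f, g⁆ ∈ Pol X Φ (i + j) := by
  intro m
  obtain ⟨P, hP, -, hc⟩ := PP_claim (X := X) Φ.F Φ.anti Φ.comm m
  rw [← hP]
  exact hc _ _ _ ((hP _ _).2 (hf m)) _ ((hP _ _).2 (hg m))

theorem F_anti {i j : ℕ} (h : i ≤ j) : Φ.F j ≤ Φ.F i := antitone_nat_of_succ_le Φ.anti h

/-- composition with additive maps -/
theorem Pol_comp {Y : Type} [AddCommGroup Y] (φ : X →+ Y) {i : ℕ} {g : Y → K}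
    (hg : g ∈ Pol Y Φ i) : (fun x => g (φ x)) ∈ Pol X Φ i := by
  intro m
  induction m generalizing i g with
  | zero => intro x; exact (hg 0) (φ x)
  | succ m ih =>
    refine ⟨fun x => (hg 0) (φ x), fun h => ?_⟩
    have h1 : D h (fun x => g (φ x)) = fun x => D (φ h) g (φ x) := by
      funext x
      simp [D]
    rw [h1]
    exact ih (((mem_Pol Φ).1 hg).2 (φ h))

/-- composition with homomorphisms -/
theorem Pol_map {K' : Type} [Group K'] {c' : ℕ} (Ψ : Filt K' c') (φ : K →* K')
    (hφ : ∀ i, ∀ x ∈ Φ.F i, φ x ∈ Ψ.F i) {i : ℕ} {g : X → K}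
    (hg : g ∈ Pol X Φ i) : (fun x => φ (g x)) ∈ Pol X Ψ i := by
  intro m
  induction m generalizing i g with
  | zero => intro x; exact hφ _ _ (hg 0 x)
  | succ m ih =>
    refine ⟨fun x => hφ _ _ (hg 0 x), fun h => ?_⟩
    have h1 : D h (fun x => φ (g x)) = fun x => φ (D h g x) := by
      funext x
      simp [D]
    rw [h1]
    exact ih (((mem_Pol Φ).1 hg).2 h)

/-- polynomial functions of degree less than `d` -/
def Deg {A : Type} [AddCommGroup A] : ℕ → (X → A) → Prop
  | 0, f => f = 0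
  | d + 1, f => ∀ h, Deg d (fun x => f (x + h) - f x)

theorem Deg_zero' {A : Type} [AddCommGroup A] (d : ℕ) : Deg d (0 : X → A) := by
  induction d with
  | zero => rfl
  | succ d ih =>
    intro h
    have : (fun x => (0 : X → A) (x + h) - (0 : X → A) x) = 0 := by funext x; simp
    rw [this]; exact ih

theorem Deg_succ {A : Type} [AddCommGroup A] (d : ℕ) {f : X → A} (hf : Deg d f) :
    Deg (d + 1) f := by
  induction d generalizing f with
  | zero =>
    intro h
    have : f = 0 := hf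
    subst this
    have : (fun x => (0 : X → A) (x + h) - (0 : X → A) x) = 0 := by funext x; simp
    rw [this]; exact Deg_zero' _
  | succ d ih => intro h; exact ih (hf h)

theorem Deg_mono {A : Type} [AddCommGroup A] {d e : ℕ} (h : d ≤ e) {f : X → A} (hf : Deg d f) :
    Deg e f := by
  induction h with
  | refl => exact hf
  | step _ ih => exact Deg_succ _ ih

theorem Deg_add {A : Type} [AddCommGroup A] (d : ℕ) {f g : X → A} (hf : Deg d f)
    (hg : Deg d g) : Deg d (f + g) := by
  induction d generalizing f g with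
  | zero =>
    have h1 : f = 0 := hf
    have h2 : g = 0 := hg
    subst h1 h2
    simp [Deg]
  | succ d ih =>
    intro h
    have : (fun x => (f + g) (x + h) - (f + g) x) =
      (fun x => f (x + h) - f x) + fun x => g (x + h) - g x := by
      funext x; simp only [Pi.add_apply]; abel
    rw [this]
    exact ih (hf h) (hg h)

theorem Deg_neg {A : Type} [AddCommGroup A] (d : ℕ) {f : X → A} (hf : Deg d f) :
    Deg d (-f) := by
  induction d generalizing f with
  | zero =>
    have h1 : f = 0 := hf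
    subst h1
    simp [Deg]
  | succ d ih =>
    intro h
    have : (fun x => (-f) (x + h) - (-f) x) = -(fun x => f (x + h) - f x) := by
      funext x; simp only [Pi.neg_apply]; abel
    rw [this]
    exact ih (hf h)

theorem Deg_mul : ∀ (N a b : ℕ), a + b = N → ∀ (f g : X → ℤ), Deg (a + 1) f → Deg (b + 1) g →
    Deg (a + b + 1) (f * g) := by
  intro N
  induction N using Nat.strong_induction_on with
  | _ N ih =>
    intro a b hab f g hf hg h
    have key : (fun x => (f * g) (x + h) - (f * g) x) =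
        (fun x => f (x + h) - f x) * g + f * (fun x => g (x + h) - g x) +
          (fun x => f (x + h) - f x) * (fun x => g (x + h) - g x) := by
      funext x; simp only [Pi.mul_apply, Pi.add_apply]; ring
    rw [key]
    have hf' := hf h
    have hg' := hg h
    have A1 : Deg (a + b) ((fun x => f (x + h) - f x) * g) := by
      cases a with
      | zero =>
        have : (fun x => f (x + h) - f x) = 0 := hf'
        rw [this, zero_mul]; exact Deg_zero' _
      | succ a =>
        have := ih (a + b) (by omega) a b rfl _ g hf' hg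
        exact Deg_mono (by omega) this
    have A2 : Deg (a + b) (f * (fun x => g (x + h) - g x)) := by
      cases b with
      | zero =>
        have : (fun x => g (x + h) - g x) = 0 := hg'
        rw [this, mul_zero]; exact Deg_zero' _
      | succ b =>
        have := ih (a + b) (by omega) a b rfl f _ hf hg'
        exact Deg_mono (by omega) this
    have A3 : Deg (a + b) ((fun x => f (x + h) - f x) * (fun x => g (x + h) - g x)) := by
      cases a with
      | zero =>
        have : (fun x => f (x + h) - f x) = 0 := hf'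
        rw [this, zero_mul]; exact Deg_zero' _
      | succ a =>
        cases b with
        | zero =>
          have : (fun x => g (x + h) - g x) = 0 := hg'
          rw [this, mul_zero]; exact Deg_zero' _
        | succ b =>
          have := ih (a + b) (by omega) a b rfl _ _ hf' hg'
          exact Deg_mono (by omega) this
    exact Deg_add _ (Deg_add _ A1 A2) A3

theorem Deg_hom (φ : X →+ ℤ) : Deg 2 (fun x => φ x) := by
  intro h h'
  funext x
  simp

theorem Deg_pow (φ : X →+ ℤ) (a : ℕ) : Deg (a + 1) (fun x => φ x ^ a) := by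
  induction a with
  | zero => intro h; funext x; simp
  | succ a ih =>
    have h1 := Deg_mul (a + 1) a 1 rfl _ _ ih (Deg_hom φ)
    have h2 : (fun x => φ x ^ a) * (fun x => φ x) = fun x => φ x ^ (a + 1) := by
      funext x; simp [pow_succ]
    rw [h2] at h1
    exact h1

theorem Deg_mon (φ ψ : X →+ ℤ) (a b : ℕ) : Deg (a + b + 1) (fun x => φ x ^ a * ψ x ^ b) :=
  Deg_mul _ a b rfl _ _ (Deg_pow φ a) (Deg_pow ψ b)

/-- powers with polynomial exponents are polynomial maps -/
theorem Pol_zpow {i : ℕ} {κ : K} (hκ : κ ∈ Φ.F i) : ∀ (m j d : ℕ) (q : X → ℤ), Deg (d + 1) q →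
    j + d ≤ i → (fun x => κ ^ q x) ∈ PP Φ.F m j := by
  intro m
  induction m with
  | zero =>
    intro j d q hq hjd x
    exact F_anti Φ (by omega) ((Φ.F i).zpow_mem hκ _)
  | succ m ih =>
    intro j d q hq hjd
    refine ⟨fun x => F_anti Φ (by omega) ((Φ.F i).zpow_mem hκ _), fun h => ?_⟩
    have h1 : D h (fun x => κ ^ q x) = fun x => κ ^ (q (x + h) - q x) := by
      funext x; simp [D, zpow_sub]
    rw [h1]
    have h2 := hq h
    cases d with
    | zero =>
      have h3 : (fun x => q (x + h) - q x) = 0 := h2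
      have h4 : (fun x => κ ^ (q (x + h) - q x)) = 1 := by
        funext x
        have h5 : q (x + h) - q x = 0 := congrFun h3 x
        rw [h5]
        simp
      rw [h4]
      exact (Pol X Φ (j + 1)).one_mem m
    | succ d => exact ih _ d _ h2 (by omega)

theorem Pol_zpow' {i : ℕ} {κ : K} (hκ : κ ∈ Φ.F i) {d : ℕ} {q : X → ℤ} (hq : Deg (d + 1) q)
    (hd : d ≤ i) : (fun x => κ ^ q x) ∈ Pol X Φ 0 :=
  fun m => Pol_zpow Φ hκ m 0 d q hq (by omega)

end

end Pool.Agent.H596Q
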